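import Pool.Agent.H78.MG.Eb
import Pool.Agent.H46.TS.TZ
import Pool.Agent.H55.T3.Sti

/-!
Block M of MP_78d38b_T3 / T4: the minus side at high level, every odd prime `l`, every conductor (helper78; no row).
-/

set_option autoImplicit false
open scoped Classical Pointwise

open IsDedekindDomain NumberField Finset H55T3

namespace H78M

theorem exists_level (l p M : ℕ) [Fact l.Prime] [Fact p.Prime] [NeZero M] (hl2 : l ≠ 2) (hp2 : p ≠ 2)
    (hlp : l ≠ p) (hpM : p.Coprime M) :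
    ∃ k0 : ℕ, ∀ (m n : ℕ) (hmn : m ≤ n), k0 ≤ m + 1 → ∀ (C : Type) [Field C] [NumberField C]
      [IsCyclotomicExtension {M * p ^ (n + 1)} ℚ C], NoNewE l p M m n hmn C ∧ NoNewT l p M m n hmn C := by
  obtain ⟨s0, hs1, hs0⟩ := exists_s0 l M
  obtain ⟨k0, hk0⟩ := H46TS.sinnottG (l := l) (p := p) (M := M) (s0 := s0) hp2 hlp hpM hs1
  refine ⟨k0, fun m n hmn hm C _ _ _ => ⟨?_, ?_⟩⟩
  · exact noNewE hl2 hp2 hlp hpM hs0 hk0 hm hmn (stick _ C)
  · exact noNewT hl2 hp2 hlp hpM hs0 hk0 hm hmn (stick _ C)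

end H78M
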