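import Pool.Agent.H55.T3.Mc
import Pool.Agent.H46.TS.Ds
import Pool.Agent.H5.SW.T2
import Pool.Agent.H5.SW.T0

/-!
Definitions for block M of MP_78d38b_T3 / T4, every odd prime `l` and every conductor `M p^(n+1)` (helper78; no row).
-/

set_option autoImplicit false
open scoped Classical Pointwise

open IsDedekindDomain NumberField Finset

namespace H78M

/-- `κ g mod N`, `g ζ = ζ ^ κ g` -/
noncomputable abbrev kp (N : ℕ) [NeZero N] {C : Type} [Field C] [NumberField C]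
    [IsCyclotomicExtension {N} ℚ C] (g : C ≃ₐ[ℚ] C) : (ZMod N)ˣ :=
  IsCyclotomicExtension.Rat.galEquivZMod N C g

/-- `g ∈ H`: `κ g = 1` modulo `M p^(m+1)` -/
def InH (p M m n : ℕ) [Fact p.Prime] [NeZero M] (hmn : m ≤ n) {C : Type} [Field C] [NumberField C]
    [IsCyclotomicExtension {M * p ^ (n + 1)} ℚ C] (g : C ≃ₐ[ℚ] C) : Prop :=
  ZMod.unitsMap (Nat.mul_dvd_mul_left M (pow_dvd_pow p (Nat.succ_le_succ hmn))) (kp (M * p ^ (n + 1)) g) = 1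

/-- `κ g = 1` modulo `M` and `κ g = -1` modulo `p^(n+1)` -/
def IsTau (p M n : ℕ) [Fact p.Prime] [NeZero M] {C : Type} [Field C] [NumberField C]
    [IsCyclotomicExtension {M * p ^ (n + 1)} ℚ C] (g : C ≃ₐ[ℚ] C) : Prop :=
  ZMod.unitsMap (dvd_mul_right M (p ^ (n + 1))) (kp (M * p ^ (n + 1)) g) = 1 ∧
    ZMod.unitsMap (dvd_mul_left (p ^ (n + 1)) M) (kp (M * p ^ (n + 1)) g) = -1

/-- No new elements modulo `l`-th powers. -/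
def NoNewE (l p M m n : ℕ) [Fact p.Prime] [NeZero M] (hmn : m ≤ n) (C : Type) [Field C] [NumberField C]
    [IsCyclotomicExtension {M * p ^ (n + 1)} ℚ C] : Prop :=
  ∀ e : C, e ≠ 0 → (∀ w : HeightOneSpectrum (𝓞 C), (l : ℤ) ∣ WithZero.log (w.valuation C e)) →
    (∃ y, ∏ g ∈ univ.filter (fun g : C ≃ₐ[ℚ] C => InH p M m n hmn g), g e = y ^ l) →
    (∀ g : C ≃ₐ[ℚ] C, kp (M * p ^ (n + 1)) g = -1 → ∃ y, e * g e = y ^ l) →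
    (∀ g : C ≃ₐ[ℚ] C, IsTau p M n g → ∃ y, g e = e * y ^ l) → ∃ y, e = y ^ l

/-- the subgroup `T` of the class group is stable under the Galois group -/
def Stab {C : Type} [Field C] [NumberField C] (T : Subgroup (ClassGroup (𝓞 C))) : Prop :=
  ∀ (g : C ≃ₐ[ℚ] C) (I : Ideal (𝓞 C)), I ≠ ⊥ → H55T3.icl I ∈ T → H55T3.icl (g • I) ∈ T

/-- No new ideal classes. -/
def NoNewT (l p M m n : ℕ) [Fact p.Prime] [NeZero M] (hmn : m ≤ n) (C : Type) [Field C] [NumberField C]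
    [IsCyclotomicExtension {M * p ^ (n + 1)} ℚ C] : Prop :=
  ∀ T : Subgroup (ClassGroup (𝓞 C)), Stab T →
    (∀ I : Ideal (𝓞 C), I ≠ ⊥ → H55T3.icl I ^ l ∈ T) →
    (∀ I : Ideal (𝓞 C), I ≠ ⊥ →
      ∏ g ∈ univ.filter (fun g : C ≃ₐ[ℚ] C => InH p M m n hmn g), H55T3.icl (g • I) ∈ T) →
    (∀ g : C ≃ₐ[ℚ] C, kp (M * p ^ (n + 1)) g = -1 → ∀ I : Ideal (𝓞 C), I ≠ ⊥ →
      H55T3.icl I * H55T3.icl (g • I) ∈ T) →
    (∀ g : C ≃ₐ[ℚ] C, IsTau p M n g → ∀ I : Ideal (𝓞 C), I ≠ ⊥ →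
      H55T3.icl (g • I) * (H55T3.icl I)⁻¹ ∈ T) → T = ⊤

/-- the Stickelberger sum `∑ φ(t)⁻¹ ⌊c t / N⌋` -/
noncomputable def St (N c : ℕ) [NeZero N] {Ω : Type*} [Field Ω] (φ : (ZMod N)ˣ →* Ωˣ) : Ω :=
  ∑ t : (ZMod N)ˣ, (((φ t)⁻¹ : Ωˣ) : Ω) * ((c * (t : ZMod N).val / N : ℕ) : Ω)

/-- the Bernoulli sum `∑ φ(t)⁻¹ ⌊t / a⌋` -/
noncomputable def Bm (N a : ℕ) [NeZero N] {Ω : Type*} [Field Ω] (φ : (ZMod N)ˣ →* Ωˣ) : Ω :=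
  ∑ t : (ZMod N)ˣ, (((φ t)⁻¹ : Ωˣ) : Ω) * (((t : ZMod N).val / a : ℕ) : Ω)

/-- `ψ⁻¹`, extended by zero -/
noncomputable def cf {M : ℕ} {Ω : Type*} [Field Ω] (ψ : (ZMod M)ˣ →* Ωˣ) (a : ZMod M) : Ω :=
  if h : IsUnit a then (((ψ h.unit)⁻¹ : Ωˣ) : Ω) else 0

theorem cf_unit {M : ℕ} {Ω : Type*} [Field Ω] (ψ : (ZMod M)ˣ →* Ωˣ) (v : (ZMod M)ˣ) :
    cf ψ (v : ZMod M) = (((ψ v)⁻¹ : Ωˣ) : Ω) := by
  unfold cf
  rw [dif_pos v.isUnit]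
  congr 3
  exact Units.ext v.isUnit.unit_spec

theorem cf_nonunit {M : ℕ} {Ω : Type*} [Field Ω] (ψ : (ZMod M)ˣ →* Ωˣ) {a : ZMod M} (h : ¬ IsUnit a) :
    cf ψ a = 0 := by
  unfold cf
  rw [dif_neg h]

end H78M
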