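import Pool.Agent.H78.MG.Df

/-!
Row MgSg: the coefficient function `ψ⁻¹` is good.

PROOF. `exists_s0`: write `φ(M) = l^b * r`, `φ = Nat.totient`, `¬ l ∣ r` (`Nat.exists_eq_pow_mul_and_not_dvd`); `s0 = Nat.totient r` if this is `≥ 1` (it is, `r ≥ 1`): `l^s0 ≡ 1 mod r` (`Nat.ModEq.pow_totient`), so `r ∣ l^s0 - 1`.
`ψ(t)^φ(M) = 1` (`ZMod.pow_totient`) implies `(ψ(t)^r)^(l^b) = 1`, so `ψ(t)^r = 1` in characteristic `l` (`ExpChar.pow_prime_pow_mul_eq_one_iff`, or injectivity of the Frobenius `frobenius_inj` iterated), so `ψ(t)^(l^s0 - 1) = 1`.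
`good`: `odd`: for a unit `a`: `cf ψ (-a) = ψ(-a)⁻¹ = - ψ(a)⁻¹` (`cf_unit`), for a non unit both sides are 0 (`cf_nonunit`, `IsUnit.neg_iff`). `zero`: `0` is not a unit of `ZMod M`: if it were, `ZMod M` would be trivial, `-1 = 1`, `ψ(-1) = 1`,
against `ψ(-1) = -1 ≠ 1` (`l ≠ 2`). `fro`: `cf_unit`, `inv_pow`. `ne`: `a = 1`.
-/

set_option autoImplicit false
open scoped Classical

open Finset

namespace H78M

theorem Sg_inj {l : ℕ} [hl : Fact l.Prime] {Ω : Type} [Field Ω] [CharP Ω l] (y : Ωˣ) (m : ℕ)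
    (h : y ^ l ^ m = 1) : y = 1 := by
  have : ExpChar Ω l := ExpChar.prime hl.out
  rw [← Units.val_inj, Units.val_one]
  apply iterateFrobenius_inj Ω l m
  rw [iterateFrobenius_def, map_one, ← Units.val_pow_eq_pow_val, h, Units.val_one]

theorem exists_s0 (l M : ℕ) [Fact l.Prime] [NeZero M] : ∃ s0 : ℕ, 1 ≤ s0 ∧
    ∀ (Ω : Type) [Field Ω] [CharP Ω l] (ψ : (ZMod M)ˣ →* Ωˣ) (t : (ZMod M)ˣ), (ψ t : Ω) ^ (l ^ s0) = ψ t := by
  have hl : l.Prime := Fact.out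
  have hφ : Nat.totient M ≠ 0 := (Nat.totient_pos.2 (Nat.pos_of_ne_zero (NeZero.ne M))).ne'
  obtain ⟨b, r, hr, hbr⟩ := Nat.exists_eq_pow_mul_and_not_dvd hφ l hl.ne_one
  have hr0 : 0 < r := by
    rcases Nat.eq_zero_or_pos r with h | h
    · rw [h] at hr
      exact absurd (dvd_zero l) hr
    · exact h
  refine ⟨Nat.totient r, Nat.totient_pos.2 hr0, ?_⟩
  intro Ω _ _ ψ t
  have hcop : Nat.Coprime l r := (Nat.Prime.coprime_iff_not_dvd hl).2 hr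
  have hmod : l ^ Nat.totient r ≡ 1 [MOD r] := Nat.ModEq.pow_totient hcop
  have h1 : 1 ≤ l ^ Nat.totient r := Nat.one_le_pow _ _ hl.pos
  obtain ⟨c, hc⟩ := (Nat.modEq_iff_dvd' h1).1 hmod.symm
  have h2 : (ψ t ^ r) ^ l ^ b = 1 := by
    rw [← pow_mul, mul_comm r, ← hbr, ← map_pow, ZMod.pow_totient, map_one]
  have h3 : ψ t ^ r = 1 := Sg_inj (ψ t ^ r) b h2
  have h4 : ψ t ^ (l ^ Nat.totient r) = ψ t := by
    have h5 : l ^ Nat.totient r = r * c + 1 := by omega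
    rw [h5, pow_succ, pow_mul, h3, one_pow, one_mul]
  rw [← Units.val_pow_eq_pow_val, h4]

theorem good {l M s0 : ℕ} [Fact l.Prime] [NeZero M] (hl2 : l ≠ 2) {Ω : Type} [Field Ω] [CharP Ω l]
    {ψ : (ZMod M)ˣ →* Ωˣ} (hψ : ψ (-1) = -1) (hs : ∀ t, (ψ t : Ω) ^ (l ^ s0) = ψ t) :
    H46TS.Good l s0 (cf ψ) := by
  have hl : l.Prime := Fact.out
  have hneg : ∀ t : (ZMod M)ˣ, ψ (-t) = - ψ t := by
    intro t
    rw [show -t = (-1) * t by rw [neg_one_mul], map_mul, hψ, neg_one_mul]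
  refine ⟨?_, ?_, ?_, ?_⟩
  · intro a
    by_cases ha : IsUnit a
    · obtain ⟨u, rfl⟩ := ha
      rw [← Units.val_neg, cf_unit, cf_unit, hneg, inv_neg, Units.val_neg]
    · rw [cf_nonunit ψ ha, cf_nonunit ψ (by rwa [IsUnit.neg_iff]), neg_zero]
  · apply cf_nonunit
    intro h0
    have h1 : (0 : ZMod M) = 1 := isUnit_zero_iff.1 h0
    have h2 : (-1 : (ZMod M)ˣ) = 1 := by
      apply Units.ext
      rw [Units.val_neg, Units.val_one, ← h1, neg_zero]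
    rw [h2, map_one] at hψ
    have h3 : (1 : Ω) = -1 := by
      have := congrArg (fun u : Ωˣ => (u : Ω)) hψ
      simpa using this
    have h4 : (2 : Ω) = 0 := by linear_combination h3
    have h5 : ((2 : ℕ) : Ω) = 0 := by exact_mod_cast h4
    have h6 : l ∣ 2 := (CharP.cast_eq_zero_iff Ω l 2).1 h5
    exact hl2 ((Nat.prime_dvd_prime_iff_eq hl Nat.prime_two).1 h6)
  · intro a
    by_cases ha : IsUnit a
    · obtain ⟨u, rfl⟩ := ha
      rw [cf_unit, Units.val_inv_eq_inv_val, inv_pow, hs]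
    · rw [cf_nonunit ψ ha, zero_pow (pow_ne_zero _ hl.ne_zero)]
  · refine ⟨1, ?_⟩
    have h1 : cf ψ ((1 : (ZMod M)ˣ) : ZMod M) = (((ψ 1)⁻¹ : Ωˣ) : Ω) := cf_unit ψ 1
    rw [Units.val_one] at h1
    rw [h1]
    exact Units.ne_zero _

end H78M
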