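import Pool.Agent.H78.MG.Ra
import Pool.Agent.H68.TL.Df
import Pool.Agent.H55.T3.Df3

/-!
Row MgPb (about 170 lines): from `F` down to a subfield `B`, pair form `K ⊆ Km ⊆ F`, `K ⊆ B ⊆ F`, `F / K` abelian. ADAPT `Pool/Agent/H68/TK/Bmb.lean` (there `l = 3`, `M = 3`, `B = C`, `F = C'`, `P h` is `h s = s`; the group `H` is here
`Gal(F/Km)`; our `res`, `cov` are its `restr_iota`, `lift_iota`), or `Pool/Agent/H78/MG/Pa.lean`. Use `H78M.pow_of_coprime` of Ra.

PROOF. `ι = algebraMap B F`, `H = Gal(F/Km)`, `|H| = [F : Km]` (`IsGalois Km F` from `IsGalois.tower_top_of_isGalois K Km F`, `IsGalois.card_aut_eq_finrank`). By `res` every `g ∈ H` has `r g : B ≃ₐ[K] B`, `P (r g)`,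
`g (ι x) = ι (r g x)`, unique as `ι` is injective, so `r` is multiplicative; by `cov` its image is exactly `{h : P h}`; all fibres have the same number `c` of elements (multiplication by a lift), `|H| = c |{P h}|`, so `|{P h}|` is prime to `l`.
`prod_K`: `algebraMap Km F (Algebra.norm Km (ι e)) = ∏_{g ∈ H} g (ι e)` (`Algebra.norm_eq_prod_automorphisms`) `= ∏_{h, P h} (ι (h e))^c = (ι y)^(l c)`.
Valuations: primes `W` of `F` over `w`: `W.valuation (ι e)` is a power of `w.valuation e` (`HeightOneSpectrum.valuation_liesOver`, see `base_minus` in `Pool/Agent/H68/TK/Bm.lean`). `HE` gives `ι e = y^l`.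
Let `P h`, `g ∈ H` a lift. For `δ ∈ Gal(F/B)`: `(δ y / y)^l = 1`, so `δ y / y` is in the image of `Km` (`hμ`) and fixed by `g`; `δ g = g δ` (`hab` for the restrictions of scalars to `K`), so `δ (g y) = g (δ y) = (δ y / y) g y`, so `g y / y` is fixed by
`Gal(F/B)`, `F/B` is Galois: `g y / y = ι (c_h)`, `h e = e c_h^l`. Multiply over `P h`: `y1^l = ∏ h e = e^|P| (∏ c_h)^l`; `e^|P|` and `e^l` are `l`-th powers: `pow_of_coprime`.
-/

set_option autoImplicit false
open scoped Classical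

open IsDedekindDomain NumberField Finset

namespace H78M

/-- the automorphisms `h` of `B` over `K` with `P h` are exactly the restrictions of the elements of `Gal(F/Km)` -/
structure PairK (K Km B F : Type) [Field K] [Field Km] [Field B] [Field F] [Algebra K B] [Algebra Km F] [Algebra B F]
    (P : (B ≃ₐ[K] B) → Prop) : Prop where
  res : ∀ g : F ≃ₐ[Km] F, ∃ h : B ≃ₐ[K] B, P h ∧ ∀ x, g (algebraMap B F x) = algebraMap B F (h x)
  cov : ∀ h : B ≃ₐ[K] B, P h → ∃ g : F ≃ₐ[Km] F, ∀ x, g (algebraMap B F x) = algebraMap B F (h x)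

variable {l : ℕ} [Fact l.Prime] {K Km B F : Type} [Field K] [NumberField K] [Field Km] [NumberField Km]
  [Field B] [NumberField B] [Field F] [NumberField F] [Algebra K Km] [Algebra Km F] [Algebra K F]
  [IsScalarTower K Km F] [Algebra K B] [Algebra B F] [IsScalarTower K B F] {P : (B ≃ₐ[K] B) → Prop}

private theorem MgPb_r {K Km B F : Type} [Field K] [NumberField K] [Field Km] [NumberField Km]
    [Field B] [NumberField B] [Field F] [NumberField F] [Algebra Km F] [Algebra K B]
    [Algebra B F] {P : (B ≃ₐ[K] B) → Prop} (X : PairK K Km B F P) :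
    ∃ (r : (F ≃ₐ[Km] F) → (B ≃ₐ[K] B)) (c : ℕ),
      (∀ g, P (r g) ∧ ∀ x, g (algebraMap B F x) = algebraMap B F (r g x)) ∧
      ∀ h, P h → (univ.filter (fun g : F ≃ₐ[Km] F => r g = h)).card = c := by
  have hex : ∀ g : F ≃ₐ[Km] F, ∃ h : B ≃ₐ[K] B, P h ∧
    ∀ x, g (algebraMap B F x) = algebraMap B F (h x) := X.res
  choose r hr using hex
  have huniq : ∀ (g : F ≃ₐ[Km] F) (h : B ≃ₐ[K] B),
      (∀ x, g (algebraMap B F x) = algebraMap B F (h x)) → r g = h := by
    intro g h hx
    refine AlgEquiv.ext fun x => ?_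
    apply (algebraMap B F).injective
    rw [← (hr g).2 x, hx x]
  refine ⟨r, (univ.filter (fun g : F ≃ₐ[Km] F => r g = 1)).card, hr, ?_⟩
  intro h hh
  obtain ⟨g₀, hx₀⟩ := X.cov h hh
  symm
  refine Finset.card_bij (fun g _ => g₀ * g) ?_ ?_ ?_
  · intro g hg
    rw [Finset.mem_filter] at hg
    rw [Finset.mem_filter]
    refine ⟨Finset.mem_univ _, ?_⟩
    apply huniq
    intro x
    rw [AlgEquiv.mul_apply, (hr g).2 x, hg.2, hx₀]
    rfl
  · intro g _ g' _ hgg
    exact mul_left_cancel hgg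
  · intro g hg
    rw [Finset.mem_filter] at hg
    refine ⟨g₀⁻¹ * g, ?_, by rw [mul_inv_cancel_left]⟩
    rw [Finset.mem_filter]
    refine ⟨Finset.mem_univ _, ?_⟩
    apply huniq
    intro x
    apply g₀.injective
    have h2 : g₀ ((g₀⁻¹ * g) (algebraMap B F x)) = (g₀ * (g₀⁻¹ * g)) (algebraMap B F x) := rfl
    rw [h2, mul_inv_cancel_left, (hr g).2 x, hg.2, hx₀]
    rfl

theorem prod_K [IsGalois K F] (X : PairK K Km B F P) {e : B} (hN : ∃ y, ∏ h ∈ univ.filter P, h e = y ^ l) :
    ∃ y, algebraMap Km F (Algebra.norm Km (algebraMap B F e)) = y ^ l := by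
  have hgal : IsGalois Km F := IsGalois.tower_top_of_isGalois K Km F
  obtain ⟨y, hy⟩ := hN
  obtain ⟨r, c, hr, hc⟩ := MgPb_r X
  refine ⟨algebraMap B F (y ^ c), ?_⟩
  rw [Algebra.norm_eq_prod_automorphisms]
  have h1 : ∏ g : F ≃ₐ[Km] F, g (algebraMap B F e) =
      algebraMap B F (∏ g : F ≃ₐ[Km] F, (r g) e) := by
    rw [map_prod]
    exact Finset.prod_congr rfl fun g _ => (hr g).2 e
  have h2 : ∏ g : F ≃ₐ[Km] F, (r g) e =
      ∏ h ∈ univ.filter P, ∏ g ∈ univ.filter (fun g : F ≃ₐ[Km] F => r g = h), (r g) e := by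
    symm
    apply Finset.prod_fiberwise_of_maps_to
    intro g _
    rw [Finset.mem_filter]
    exact ⟨Finset.mem_univ _, (hr g).1⟩
  have h3 : ∏ h ∈ univ.filter P, ∏ g ∈ univ.filter (fun g : F ≃ₐ[Km] F => r g = h), (r g) e =
      ∏ h ∈ univ.filter P, (h e) ^ c := by
    refine Finset.prod_congr rfl fun h hh => ?_
    rw [← hc h (Finset.mem_filter.1 hh).2, ← Finset.prod_const]
    refine Finset.prod_congr rfl fun g hg => ?_
    rw [(Finset.mem_filter.1 hg).2]
  rw [h1, h2, h3, Finset.prod_pow, hy, ← map_pow, ← pow_mul, ← pow_mul, mul_comm]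

theorem down_K [IsGalois K F] (hab : ∀ g h : F ≃ₐ[K] F, g * h = h * g) (hn : ¬ l ∣ Module.finrank Km F)
    (hμ : ∀ z : F, z ^ l = 1 → ∃ y : Km, algebraMap Km F y = z) (X : PairK K Km B F P) {e : B} (he : e ≠ 0)
    (hN : ∃ y, ∏ h ∈ univ.filter P, h e = y ^ l) {y : F} (hy : algebraMap B F e = y ^ l) : ∃ y : B, e = y ^ l := by
  have hl : l.Prime := Fact.out
  have hgal : IsGalois Km F := IsGalois.tower_top_of_isGalois K Km F
  have hgalB : IsGalois B F := IsGalois.tower_top_of_isGalois K B F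
  obtain ⟨r, c0, hr, hc0⟩ := MgPb_r X
  have hιe : algebraMap B F e ≠ 0 := by rw [Ne, map_eq_zero]; exact he
  have hy0 : y ≠ 0 := by
    rintro rfl
    exact hιe (by rw [hy, zero_pow hl.ne_zero])
  have hcard : Module.finrank Km F = (univ.filter P).card * c0 := by
    rw [← IsGalois.card_aut_eq_finrank Km F, Nat.card_eq_fintype_card, ← Finset.card_univ]
    rw [Finset.card_eq_sum_card_fiberwise (f := r) (t := univ.filter P)
      (fun g _ => Finset.mem_coe.2 (Finset.mem_filter.2 ⟨Finset.mem_univ _, (hr g).1⟩))]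
    rw [Finset.sum_congr rfl (fun h hh => hc0 h (Finset.mem_filter.1 hh).2), Finset.sum_const,
      smul_eq_mul]
  have hcop : ((univ.filter P).card).Coprime l := by
    rw [Nat.coprime_comm, Nat.Prime.coprime_iff_not_dvd hl]
    intro h
    apply hn
    rw [hcard]
    exact Dvd.dvd.mul_right h _
  have key : ∀ h : B ≃ₐ[K] B, P h → ∃ c : B, e = h e * c ^ l := by
    intro h hh
    obtain ⟨g, hx⟩ := X.cov h hh
    have hgy0 : g y ≠ 0 := by
      intro h0
      exact hy0 (by simpa using h0)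
    have hfix : ∀ δ : F ≃ₐ[B] F, δ (y / g y) = y / g y := by
      intro δ
      have hδe : δ (algebraMap B F e) = algebraMap B F e := δ.commutes e
      have hδy0 : δ y ≠ 0 := by
        intro h0
        exact hy0 (by simpa using h0)
      have h1 : (δ y / y) ^ l = 1 := by
        rw [div_pow, ← map_pow, ← hy, hδe]
        exact div_self hιe
      obtain ⟨k, hk⟩ := hμ _ h1
      have h2 : g (δ y / y) = δ y / y := by
        rw [← hk]
        exact g.commutes k
      have hcomm : δ (g y) = g (δ y) := by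
        have h4 := hab (δ.restrictScalars K) (g.restrictScalars K)
        have h5 := DFunLike.congr_fun h4 y
        exact h5
      rw [map_div₀] at h2
      rw [map_div₀, hcomm, div_eq_div_iff (by intro h0; exact hδy0 (by simpa using h0)) hgy0]
      rw [div_eq_div_iff hgy0 hy0] at h2
      linear_combination -h2
    obtain ⟨c, hc⟩ := (IsGalois.mem_range_algebraMap_iff_fixed (F := B) (E := F) (y / g y)).2 hfix
    refine ⟨c, ?_⟩
    apply (algebraMap B F).injective
    rw [map_mul, map_pow, hc, ← hx, hy, map_pow, div_pow]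
    field_simp
  choose! c hc using key
  obtain ⟨y₁, hy₁⟩ := hN
  have hprod : e ^ (univ.filter P).card = (y₁ * ∏ h ∈ univ.filter P, c h) ^ l := by
    rw [← Finset.prod_const, mul_pow, ← hy₁, ← Finset.prod_pow, ← Finset.prod_mul_distrib]
    exact Finset.prod_congr rfl fun h hh => hc h (Finset.mem_filter.1 hh).2
  exact pow_of_coprime hcop he ⟨_, hprod⟩ ⟨e, rfl⟩

theorem pair_K [IsGalois K F] (hab : ∀ g h : F ≃ₐ[K] F, g * h = h * g) (hn : ¬ l ∣ Module.finrank Km F)
    (hμ : ∀ z : F, z ^ l = 1 → ∃ y : Km, algebraMap Km F y = z) {Q : Set (F ≃+* F)} {J : F ≃+* F}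
    (HE : H68TL.NoNewE l Km F Q J) (X : PairK K Km B F P) {e : B} (he : e ≠ 0)
    (hv : ∀ w : HeightOneSpectrum (𝓞 B), (l : ℤ) ∣ WithZero.log (w.valuation B e))
    (hN : ∃ y, ∏ h ∈ univ.filter P, h e = y ^ l)
    (hQ : ∀ τ ∈ Q, ∃ y, τ (algebraMap B F e) = algebraMap B F e * y ^ l)
    (hJ : ∃ y, algebraMap B F e * J (algebraMap B F e) = y ^ l) : ∃ y : B, e = y ^ l := by
  have hιe : algebraMap B F e ≠ 0 := by rw [Ne, map_eq_zero]; exact he
  have hvF : ∀ W : HeightOneSpectrum (𝓞 F), (l : ℤ) ∣ WithZero.log (W.valuation F (algebraMap B F e)) := by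
    intro W
    have hbot : W.asIdeal.under (𝓞 B) ≠ ⊥ := Ideal.IsIntegral.comap_ne_bot _ W.ne_bot
    let w : HeightOneSpectrum (𝓞 B) := ⟨W.asIdeal.under (𝓞 B), inferInstance, hbot⟩
    have : W.asIdeal.LiesOver w.asIdeal := ⟨rfl⟩
    have h1 := HeightOneSpectrum.valuation_liesOver (K := B) F w W e
    rw [← h1, WithZero.log_pow, nsmul_eq_mul]
    exact (hv w).mul_left _
  obtain ⟨y, hy⟩ := HE (algebraMap B F e) hιe hvF (prod_K X hN) hQ hJ
  exact down_K hab hn hμ X he hN hy

end H78M
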