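import Pool.Agent.H78.MG.Df
import Pool.Agent.H68.TL.Df

/-!
Row MgPd (about 100 lines): the base case `Km = ℚ(ζ_{M p^(m+1)}) ⊆ F = ℚ(ζ_{M p^(n+1)})` in pair form.

PROOF. `Km / ℚ` and `F / ℚ` are Galois (`IsCyclotomicExtension.isGalois`). `g : F ≃ₐ[ℚ] F` satisfies `InH` iff it fixes the image of `Km`: by `IsCyclotomicExtension.Rat.galEquivZMod_restrictNormal_apply` (`h : M p^(m+1) ∣ M p^(n+1)`)
`galEquivZMod _ Km (g.restrictNormal Km) = unitsMap h (kp g)`, this is `1` iff `g.restrictNormal Km = 1` (`galEquivZMod` is an isomorphism) iff `g (algebraMap Km F x) = algebraMap Km F x` for all `x` (`AlgEquiv.restrictNormal_commutes`).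
So `g ↦ g.restrictScalars ℚ` is a bijection from `F ≃ₐ[Km] F` onto `{g : InH g}` (inverse: `AlgEquiv.ofRingEquiv`), and `algebraMap Km F (Algebra.norm Km e) = ∏_{g : F ≃ₐ[Km] F} g e` (`Algebra.norm_eq_prod_automorphisms`, `IsGalois Km F` by
`IsGalois.tower_top_of_isGalois ℚ Km F`) `= ∏_{InH g} g e` (`Finset.prod_bij`). The other hypotheses of `H68TL.NoNewE` are those of `H78M.NoNewE` (`kp g = -1 = kp J` gives `g = J`).
-/

set_option autoImplicit false
open scoped Classical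

open IsDedekindDomain NumberField Finset

namespace H78M

variable {l p M m n : ℕ} [Fact p.Prime] [NeZero M] {hmn : m ≤ n} {Km F : Type} [Field Km] [NumberField Km]
  [Field F] [NumberField F] [Algebra Km F] [IsCyclotomicExtension {M * p ^ (m + 1)} ℚ Km]
  [IsCyclotomicExtension {M * p ^ (n + 1)} ℚ F]

variable (hmn) in
theorem inH_iff (g : F ≃ₐ[ℚ] F) :
    InH p M m n hmn g ↔ ∀ x : Km, g (algebraMap Km F x) = algebraMap Km F x := by
  have hp : p.Prime := Fact.out
  have h0 : NeZero (M * p ^ (m + 1)) := ⟨mul_ne_zero (NeZero.ne M) (pow_ne_zero _ hp.ne_zero)⟩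
  have h1 : NeZero (M * p ^ (n + 1)) := ⟨mul_ne_zero (NeZero.ne M) (pow_ne_zero _ hp.ne_zero)⟩
  have hG : IsGalois ℚ Km := IsCyclotomicExtension.isGalois {M * p ^ (m + 1)} ℚ Km
  have hd : M * p ^ (m + 1) ∣ M * p ^ (n + 1) := Nat.mul_dvd_mul_left M (pow_dvd_pow p (Nat.succ_le_succ hmn))
  have h2 := IsCyclotomicExtension.Rat.galEquivZMod_restrictNormal_apply (M * p ^ (n + 1)) F Km hd g
  unfold InH kp
  rw [← h2, EmbeddingLike.map_eq_one_iff]
  constructor
  · intro h x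
    have h3 := AlgEquiv.restrictNormal_commutes g Km x
    rw [← h3, h, AlgEquiv.one_apply]
  · intro h
    ext x
    apply (algebraMap Km F).injective
    rw [AlgEquiv.restrictNormal_commutes, h, AlgEquiv.one_apply]

variable (hmn) in
theorem norm_eq_inH (e : F) :
    algebraMap Km F (Algebra.norm Km e) = ∏ g ∈ univ.filter (fun g : F ≃ₐ[ℚ] F => InH p M m n hmn g), g e := by
  have hp : p.Prime := Fact.out
  have h1 : NeZero (M * p ^ (n + 1)) := ⟨mul_ne_zero (NeZero.ne M) (pow_ne_zero _ hp.ne_zero)⟩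
  have hG : IsGalois ℚ F := IsCyclotomicExtension.isGalois {M * p ^ (n + 1)} ℚ F
  have hG' : IsGalois Km F := IsGalois.tower_top_of_isGalois ℚ Km F
  rw [Algebra.norm_eq_prod_automorphisms]
  refine Finset.prod_bij' (fun (g : F ≃ₐ[Km] F) _ => g.restrictScalars ℚ)
    (fun (g : F ≃ₐ[ℚ] F) hg => AlgEquiv.ofRingEquiv (f := (g : F ≃+* F))
      ((inH_iff (Km := Km) hmn g).1 (Finset.mem_filter.1 hg).2)) ?_ ?_ ?_ ?_ ?_
  · intro g _
    rw [Finset.mem_filter]
    refine ⟨Finset.mem_univ _, ?_⟩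
    rw [inH_iff (Km := Km) hmn]
    intro x
    exact g.commutes x
  · intro g _
    exact Finset.mem_univ _
  · intro g _
    ext x
    rfl
  · intro g _
    ext x
    rfl
  · intro g _
    rfl

theorem base_E (HE : NoNewE l p M m n hmn F) (J : F ≃ₐ[ℚ] F) (hJ : kp (M * p ^ (n + 1)) J = -1) :
    H68TL.NoNewE l Km F {τ | ∃ g : F ≃ₐ[ℚ] F, IsTau p M n g ∧ (g : F ≃+* F) = τ} (J : F ≃+* F) := by
  intro e he hv hN hP hJe
  refine HE e he hv ?_ ?_ ?_
  · obtain ⟨y, hy⟩ := hN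
    exact ⟨y, by rw [← hy, norm_eq_inH (p := p) (M := M) (Km := Km) hmn]⟩
  · intro g hg
    have h1 : g = J := by
      rw [← hJ] at hg
      exact (MulEquiv.injective _) hg
    rw [h1]
    exact hJe
  · intro g hg
    exact hP (g : F ≃+* F) ⟨g, hg, rfl⟩

end H78M
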