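import Mathlib

/-!
Row MgCa (about 120 lines): a character killing the relations of a class of order `l`. ADAPT `Pool/Agent/H55/T3/Ma.lean` (there `l = 3`): replace `3` by `l` everywhere
(`Fact l.Prime` gives the nonzero and nontrivial facts; `ZMod.val_one` needs `Fact (1 < l)`). Self contained.
-/

set_option autoImplicit false

namespace H78M

private lemma MgCa_val_add {l : ℕ} [Fact l.Prime] {A : Type*} [CommGroup A] (x : A) (h : x ^ l = 1) (a b : ZMod l) :
    x ^ (a + b).val = x ^ a.val * x ^ b.val := by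
  rw [ZMod.val_add, ← pow_add, ← pow_eq_pow_mod _ h]

private lemma MgCa_val_mul {l : ℕ} [Fact l.Prime] {A : Type*} [CommGroup A] (x : A) (h : x ^ l = 1) (a b : ZMod l) :
    x ^ (a * b).val = (x ^ b.val) ^ a.val := by
  rw [ZMod.val_mul, ← pow_mul, mul_comm b.val a.val, ← pow_eq_pow_mod _ h]

/-- The ideal of the relations. -/
private noncomputable def MgCa_id {l : ℕ} [Fact l.Prime] {G : Type} [CommGroup G] [Fintype G] {A : Type*} [CommGroup A]
    (κ : G → A) (hl : ∀ g, κ g ^ l = 1)
    (hmul : ∀ (h : G) (θ : G → ℕ), ∏ g, κ g ^ θ g = 1 → ∏ g, κ (h * g) ^ θ g = 1) :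
    Ideal (MonoidAlgebra (ZMod l) G) where
  carrier := {v | ∏ g, κ g ^ (v.coeff g).val = 1}
  zero_mem' := by
    change ∏ g, κ g ^ ((0 : MonoidAlgebra (ZMod l) G).coeff g).val = 1
    simp
  add_mem' := by
    intro a b ha hb
    change ∏ g, κ g ^ ((a + b).coeff g).val = 1
    have ha' : ∏ g, κ g ^ (a.coeff g).val = 1 := ha
    have hb' : ∏ g, κ g ^ (b.coeff g).val = 1 := hb
    rw [MonoidAlgebra.coeff_add]
    calc ∏ g, κ g ^ ((a.coeff + b.coeff) g).val
        = ∏ g, (κ g ^ (a.coeff g).val * κ g ^ (b.coeff g).val) :=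
          Finset.prod_congr rfl fun g _ => by
            rw [Finsupp.add_apply, MgCa_val_add _ (hl g)]
      _ = 1 := by rw [Finset.prod_mul_distrib, ha', hb', one_mul]
  smul_mem' := by
    intro r v hv
    have hv' : ∏ g, κ g ^ (v.coeff g).val = 1 := hv
    change ∏ g, κ g ^ ((r * v).coeff g).val = 1
    induction r using MonoidAlgebra.induction_linear with
    | zero => simp
    | add x y hx hy =>
      rw [add_mul, MonoidAlgebra.coeff_add]
      calc ∏ g, κ g ^ (((x * v).coeff + (y * v).coeff) g).val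
          = ∏ g, (κ g ^ ((x * v).coeff g).val * κ g ^ ((y * v).coeff g).val) :=
            Finset.prod_congr rfl fun g _ => by
              rw [Finsupp.add_apply, MgCa_val_add _ (hl g)]
        _ = 1 := by rw [Finset.prod_mul_distrib, hx, hy, one_mul]
    | single h c =>
      have h2 := hmul h (fun g => (v.coeff g).val) hv'
      have h4 : ∏ g, κ g ^ (v.coeff (h⁻¹ * g)).val = 1 := by
        rw [← h2]
        refine (Fintype.prod_equiv (Equiv.mulLeft h) _ _ fun g => ?_).symm
        simp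
      calc ∏ g, κ g ^ ((MonoidAlgebra.single h c * v).coeff g).val
          = ∏ g, (κ g ^ (v.coeff (h⁻¹ * g)).val) ^ c.val :=
            Finset.prod_congr rfl fun g _ => by
              rw [MonoidAlgebra.coeff_single_mul_apply, MgCa_val_mul _ (hl g)]
        _ = 1 := by rw [Finset.prod_pow, h4, one_pow]

/-- Let `κ : G → A` be a family of elements with `l`-th power one in an abelian group, such that the relations of the family are stable under translation,
and `κ 1 ≠ 1`. Then there is a character of `G` in characteristic `l` killing all relations. -/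
theorem exists_char {l : ℕ} [Fact l.Prime] {G : Type} [CommGroup G] [Fintype G] {A : Type*} [CommGroup A]
    (κ : G → A) (hl : ∀ g, κ g ^ l = 1)
    (hmul : ∀ (h : G) (θ : G → ℕ), ∏ g, κ g ^ θ g = 1 → ∏ g, κ (h * g) ^ θ g = 1) (h1 : κ 1 ≠ 1) :
    ∃ (Ω : Type) (_ : Field Ω) (_ : CharP Ω l) (_ : IsAlgClosed Ω) (φ : G →* Ωˣ),
      ∀ θ : G → ℕ, ∏ g, κ g ^ θ g = 1 → ∑ g, (θ g : Ω) * (φ g : Ω) = 0 := by
  classical
  haveI : Fact (1 < l) := ⟨(Fact.out : l.Prime).one_lt⟩
  have hne : MgCa_id κ hl hmul ≠ ⊤ := by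
    intro h
    have h2 : (1 : MonoidAlgebra (ZMod l) G) ∈ MgCa_id κ hl hmul := by rw [h]; trivial
    have h4 : ∏ g, κ g ^ ((1 : MonoidAlgebra (ZMod l) G).coeff g).val = 1 := h2
    apply h1
    rw [← h4, Finset.prod_eq_single 1]
    · rw [MonoidAlgebra.coeff_one_one]
      simp [ZMod.val_one]
    · intro g _ hg
      rw [MonoidAlgebra.one_def, MonoidAlgebra.coeff_single_apply, if_neg (Ne.symm hg)]
      simp
    · intro h; exact absurd (Finset.mem_univ _) h
  obtain ⟨𝔪, hmax, hle⟩ := Ideal.exists_le_maximal _ hne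
  letI : Field (MonoidAlgebra (ZMod l) G ⧸ 𝔪) := Ideal.Quotient.field 𝔪
  let k := MonoidAlgebra (ZMod l) G ⧸ 𝔪
  let Ω := AlgebraicClosure k
  let ι : MonoidAlgebra (ZMod l) G →+* Ω := (algebraMap k Ω).comp (Ideal.Quotient.mk 𝔪)
  have hc : CharP Ω l :=
    charP_of_injective_ringHom (f := ι.comp (algebraMap (ZMod l) (MonoidAlgebra (ZMod l) G)))
      (RingHom.injective _) l
  refine ⟨Ω, inferInstance, hc, inferInstance,
    (ι.toMonoidHom.comp (MonoidAlgebra.of (ZMod l) G)).toHomUnits, fun θ hθ => ?_⟩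
  have hcast : ∀ g, κ g ^ ((θ g : ZMod l)).val = κ g ^ θ g := fun g => by
    rw [ZMod.val_natCast, ← pow_eq_pow_mod _ (hl g)]
  have hco : ∀ g, (∑ g', MonoidAlgebra.single g' (θ g' : ZMod l)).coeff g = (θ g : ZMod l) := by
    intro g
    rw [MonoidAlgebra.coeff_sum, Finsupp.finset_sum_apply]
    rw [Finset.sum_eq_single g]
    · rw [MonoidAlgebra.coeff_single_apply, if_pos rfl]
    · intro g' _ hg
      rw [MonoidAlgebra.coeff_single_apply, if_neg hg]
    · intro h; exact absurd (Finset.mem_univ _) h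
  have hv : (∑ g', MonoidAlgebra.single g' (θ g' : ZMod l)) ∈ MgCa_id κ hl hmul := by
    change ∏ g, κ g ^ ((∑ g', MonoidAlgebra.single g' (θ g' : ZMod l)).coeff g).val = 1
    rw [← hθ]
    exact Finset.prod_congr rfl fun g _ => by rw [hco, hcast]
  have hz : ι (∑ g', MonoidAlgebra.single g' (θ g' : ZMod l)) = 0 := by
    change algebraMap k Ω (Ideal.Quotient.mk 𝔪 _) = 0
    rw [Ideal.Quotient.eq_zero_iff_mem.2 (hle hv), map_zero]
  rw [map_sum] at hz
  rw [← hz]
  refine Finset.sum_congr rfl fun g _ => ?_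
  have h5 : (MonoidAlgebra.single g (θ g : ZMod l))
      = (θ g : MonoidAlgebra (ZMod l) G) * MonoidAlgebra.of (ZMod l) G g := by
    rw [← nsmul_eq_mul]
    ext g'
    simp
  rw [h5, map_mul, map_natCast]
  rfl


end H78M
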