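import Mathlib

/-!
Row MgCb (about 90 lines): an element with all valuations divisible by `l` is `y b^l` with `(y) = I^l`. ADAPT `Pool/Agent/H55/T3/Me.lean` (there `l = 3`): `y = a * b ^ (l - 1)`,
`e = y * (b⁻¹)^l`, `v.valuation y = v.valuation e * v.valuation b ^ l`, `Multiset.exists_smul_of_dvd_count` with `k = l`. Self contained.
-/

set_option autoImplicit false

open IsDedekindDomain NumberField nonZeroDivisors UniqueFactorizationMonoid

namespace H78M

theorem exists_pow_ideal {l : ℕ} [Fact l.Prime] {C : Type*} [Field C] [NumberField C] {e : C} (he : e ≠ 0)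
    (hv : ∀ w : HeightOneSpectrum (𝓞 C), (l : ℤ) ∣ WithZero.log (w.valuation C e)) :
    ∃ (y : 𝓞 C) (b : C) (I : Ideal (𝓞 C)), y ≠ 0 ∧ b ≠ 0 ∧ I ≠ ⊥ ∧ I ^ l = Ideal.span {y} ∧
      e = (y : C) * b ^ l := by
  classical
  obtain ⟨m, hm⟩ : ∃ m : ℕ, l = m + 1 := ⟨l - 1, by have := (Fact.out : l.Prime).pos; omega⟩
  have hl0 : l ≠ 0 := (Fact.out : l.Prime).ne_zero
  obtain ⟨a, b, hb, rfl⟩ := IsFractionRing.div_surjective (A := 𝓞 C) e
  have hb0 : b ≠ 0 := nonZeroDivisors.ne_zero hb
  have ha0 : a ≠ 0 := by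
    rintro rfl
    apply he
    simp
  have haK : (a : C) ≠ 0 := RingOfIntegers.coe_ne_zero_iff.mpr ha0
  have hbK : (b : C) ≠ 0 := RingOfIntegers.coe_ne_zero_iff.mpr hb0
  have hy : a * b ^ m ≠ 0 := mul_ne_zero ha0 (pow_ne_zero m hb0)
  have hyK : ((a * b ^ m : 𝓞 C) : C) = (a : C) / (b : C) * (b : C) ^ l := by
    rw [hm, pow_succ]
    push_cast
    field_simp
  have hev : ∀ v : HeightOneSpectrum (𝓞 C), l ∣ multiplicity v.asIdeal (Ideal.span {a * b ^ m}) := by
    intro v
    have h1 := hv v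
    have h2 : v.valuation C ((a * b ^ m : 𝓞 C) : C) =
        v.valuation C ((a : C) / (b : C)) * v.valuation C (b : C) ^ l := by
      rw [← map_pow, ← map_mul, hyK]
    have h3 := v.intValuation_eq_exp_neg_multiplicity hy
    rw [← v.valuation_of_algebraMap (K := C)] at h3
    have h4 := congrArg WithZero.log h2
    change WithZero.log (v.valuation C (algebraMap (𝓞 C) C (a * b ^ m))) = _ at h4
    rw [h3, WithZero.log_exp, WithZero.log_mul, WithZero.log_pow] at h4
    · have h5 : (l : ℤ) ∣ (multiplicity v.asIdeal (Ideal.span {a * b ^ m}) : ℤ) := by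
        change (l : ℤ) ∣ WithZero.log (v.valuation C ((a : C) / (b : C))) at h1
        rw [nsmul_eq_mul] at h4
        have h6 : (multiplicity v.asIdeal (Ideal.span {a * b ^ m}) : ℤ) =
            -(WithZero.log (v.valuation C ((a : C) / (b : C))) +
              (l : ℤ) * WithZero.log (v.valuation C (b : C))) := by
          rw [← h4, neg_neg]
        rw [h6]
        exact (dvd_add h1 (dvd_mul_right _ _)).neg_right
      exact_mod_cast h5
    · rw [Valuation.ne_zero_iff]
      exact div_ne_zero haK hbK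
    · exact pow_ne_zero _ ((Valuation.ne_zero_iff _).mpr hbK)
  have hI : Ideal.span {a * b ^ m} ≠ 0 := by
    rw [Ideal.zero_eq_bot, Ne, Ideal.span_singleton_eq_bot]
    exact hy
  obtain ⟨u, hu⟩ := Multiset.exists_smul_of_dvd_count
    (normalizedFactors (Ideal.span {a * b ^ m})) (k := l)
    (by
      intro P hP
      have hirr := irreducible_of_normalized_factor P hP
      have hpr : Prime P := hirr.prime
      have hev' := hev ⟨P, Ideal.isPrime_of_prime hpr, hpr.ne_zero⟩
      rw [multiplicity_eq_count_normalizedFactors hirr hI, normalize_eq] at hev'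
      exact hev')
  have hJ2 : u.prod ^ l = Ideal.span {a * b ^ m} := by
    rw [← Multiset.prod_nsmul, ← hu]
    exact Ideal.prod_normalizedFactors_eq_self hI
  have hJ0 : u.prod ≠ 0 := by
    intro h
    rw [h] at hJ2
    exact hI (by rw [← hJ2, zero_pow hl0])
  refine ⟨a * b ^ m, (b : C)⁻¹, u.prod, hy, inv_ne_zero hbK, hJ0, hJ2, ?_⟩
  change (a : C) / (b : C) = _
  rw [hyK, inv_pow, mul_assoc, mul_inv_cancel₀ (pow_ne_zero l hbK), mul_one]

end H78M
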