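import Pool.Agent.H78.MG.Df

/-!
Row MgCc (about 60 lines): relations modulo `l`-th powers give principal ideals. ADAPT `ideal_cube_inj` and `isPrincipal_of_cube` in `Pool/Agent/H55/T3/Mc.lean` (there `l = 3`).
-/

set_option autoImplicit false
open scoped Classical Pointwise

open IsDedekindDomain NumberField Finset H55T3

namespace H78M

variable {C : Type} [Field C] [NumberField C]

theorem ideal_pow_inj {l : ℕ} (hl : l ≠ 0) {A B : Ideal (𝓞 C)} (h : A ^ l = B ^ l) : A = B := by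
  apply dvd_antisymm
  · exact (UniqueFactorizationMonoid.pow_dvd_pow_iff_dvd (n := l) hl).1 h.dvd
  · exact (UniqueFactorizationMonoid.pow_dvd_pow_iff_dvd (n := l) hl).1 h.symm.dvd

theorem isPrincipal_of_pow {l : ℕ} (hl : l ≠ 0) [IsGalois ℚ C] {y : 𝓞 C} {I : Ideal (𝓞 C)}
    (hI : I ^ l = Ideal.span {y}) (θ : (C ≃ₐ[ℚ] C) → ℕ) {s : C} (hs : ∏ g, (g (y : C)) ^ θ g = s ^ l) :
    (∏ g, (g • I) ^ θ g).IsPrincipal := by
  set b : 𝓞 C := ∏ g : C ≃ₐ[ℚ] C, (g • y) ^ θ g with hb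
  have hA : (∏ g : C ≃ₐ[ℚ] C, (g • I) ^ θ g) ^ l = Ideal.span {b} := by
    rw [← Finset.prod_pow, hb, ← Ideal.prod_span_singleton]
    apply Finset.prod_congr rfl
    intro g _
    rw [← Ideal.span_singleton_pow, ← pow_mul, mul_comm, pow_mul, ← smul_pow', hI, smul_span_single]
  have hbs : (b : C) = s ^ l := by
    have h1 := map_prod (algebraMap (𝓞 C) C) (fun g : C ≃ₐ[ℚ] C => (g • y) ^ θ g) Finset.univ
    rw [← hs, hb]
    refine h1.trans ?_
    apply Finset.prod_congr rfl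
    intro g _
    exact map_pow (algebraMap (𝓞 C) C) (g • y) (θ g)
  have hsint : IsIntegral ℤ s := by
    apply IsIntegral.of_pow (n := l) (Nat.pos_of_ne_zero hl)
    rw [← hbs]
    exact NumberField.RingOfIntegers.isIntegral_coe b
  set r : 𝓞 C := ⟨s, hsint⟩ with hr
  have hrb : r ^ l = b := by
    apply NumberField.RingOfIntegers.ext
    rw [hbs]
    exact map_pow (algebraMap (𝓞 C) C) r l
  have hAr : (∏ g : C ≃ₐ[ℚ] C, (g • I) ^ θ g) = Ideal.span {r} := by
    apply ideal_pow_inj hl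
    rw [hA, Ideal.span_singleton_pow, hrb]
  rw [hAr]
  exact ⟨⟨r, rfl⟩⟩

end H78M
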