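import Pool.Agent.H78.MG.Df
import Pool.Agent.H78.MG.Ca

/-!
Row MgCd (about 90 lines): the character attached to an ideal class outside `T`. Use only the STATEMENTS of Ca, and of `Pool/Agent/H55/T3/Mc.lean` (`smul_ne_bot`, `Mc_pow`, `Mc_prod`, ...);
compare `H55T3.exists_phi` in `Pool/Agent/H55/T3/Mk.lean`.

PROOF. `e = galEquivZMod N C : (C ≃ₐ[ℚ] C) ≃* (ZMod N)ˣ`. Apply `exists_char` with `G = (ZMod N)ˣ`, `A = ClassGroup (𝓞 C) ⧸ T`, `κ t = QuotientGroup.mk (icl (e.symm t • I))`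
(`QuotientGroup.eq_one_iff : (x : G ⧸ N) = 1 ↔ x ∈ N`; a product of powers of classes is the class of the product: `map_prod`, `map_pow` for `QuotientGroup.mk' T`).
* `hl`: `icl (g • I) ^ l = icl (g • I ^ l)` (`Mc_pow`, `smul_pow'`), and `icl (I ^ l) = icl I ^ l ∈ T`, so `Stab T` applied to `I ^ l ≠ ⊥`.
* `hmul`: `∏ t, icl (e.symm t • I) ^ θ t ∈ T`. By `Mc_prod` it is `icl J`, `J = ∏ t, (e.symm t • I) ^ θ t ≠ ⊥`. `Stab T` gives `icl (e.symm h • J) ∈ T`, and `e.symm h • J = ∏ t, (e.symm (h * t) • I) ^ θ t`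
  (`Finset.smul_prod'`, `smul_pow'`, `smul_smul`, `map_mul`), again `Mc_prod`.
* `h1`: `κ 1 = mk (icl I) ≠ 1`.
The result: for `θ : (C ≃ₐ[ℚ] C) → ℕ`, `θ' = θ ∘ e.symm`, reindex the product and the sum by `e` (`Fintype.prod_equiv e.toEquiv`).
-/

set_option autoImplicit false
open scoped Classical Pointwise

open IsDedekindDomain NumberField Finset H55T3

namespace H78M

theorem exists_phi {l : ℕ} [Fact l.Prime] (N : ℕ) [NeZero N] {C : Type} [Field C] [NumberField C]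
    [IsCyclotomicExtension {N} ℚ C] {T : Subgroup (ClassGroup (𝓞 C))} (hT : Stab T) {I : Ideal (𝓞 C)}
    (hI0 : I ≠ ⊥) (hIl : icl I ^ l ∈ T) (hI : icl I ∉ T) :
    ∃ (Ω : Type) (_ : Field Ω) (_ : CharP Ω l) (_ : IsAlgClosed Ω) (φ : (ZMod N)ˣ →* Ωˣ),
      ∀ θ : (C ≃ₐ[ℚ] C) → ℕ, ∏ g, icl (g • I) ^ θ g ∈ T →
        ∑ g, (θ g : Ω) * (φ (kp N g) : Ω) = 0 := by
  obtain ⟨e, he⟩ : ∃ e : (C ≃ₐ[ℚ] C) ≃* (ZMod N)ˣ, e = IsCyclotomicExtension.Rat.galEquivZMod N C := ⟨_, rfl⟩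
  have hnb : ∀ t : (ZMod N)ˣ, e.symm t • I ≠ ⊥ := fun t => smul_ne_bot _ hI0
  have key : ∀ (h : (ZMod N)ˣ) (θ : (ZMod N)ˣ → ℕ),
      ∏ t, (QuotientGroup.mk' T (icl (e.symm (h * t) • I))) ^ θ t = 1 ↔
        icl (∏ t, (e.symm (h * t) • I) ^ θ t) ∈ T := by
    intro h θ
    rw [(Mc_prod univ (fun t => e.symm (h * t) • I) (fun t _ => hnb _) θ).2]
    have h2 : ∏ t, (QuotientGroup.mk' T (icl (e.symm (h * t) • I))) ^ θ t
        = QuotientGroup.mk' T (∏ t, icl (e.symm (h * t) • I) ^ θ t) := by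
      rw [map_prod]
      exact Finset.prod_congr rfl fun t _ => by rw [map_pow]
    rw [h2]
    exact QuotientGroup.eq_one_iff _
  have key1 : ∀ (θ : (ZMod N)ˣ → ℕ),
      ∏ t, (QuotientGroup.mk' T (icl (e.symm t • I))) ^ θ t = 1 ↔
        icl (∏ t, (e.symm t • I) ^ θ t) ∈ T := by
    intro θ
    have h := key 1 θ
    simp only [one_mul] at h
    exact h
  obtain ⟨Ω, iF, iC, iA, φ, hφ⟩ := exists_char (l := l) (G := (ZMod N)ˣ)
    (fun t => QuotientGroup.mk' T (icl (e.symm t • I))) (by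
    intro t
    show (QuotientGroup.mk' T (icl (e.symm t • I))) ^ l = 1
    rw [← map_pow, ← Mc_pow (hnb t), ← smul_pow']
    have h1 : icl (I ^ l) ∈ T := by
      rw [Mc_pow hI0]
      exact hIl
    exact (QuotientGroup.eq_one_iff _).2 (hT (e.symm t) (I ^ l) (pow_ne_zero l hI0) h1)) (by
    intro h θ hθ
    have hθ' : ∏ t, (QuotientGroup.mk' T (icl (e.symm t • I))) ^ θ t = 1 := hθ
    rw [key1] at hθ'
    show ∏ t, (QuotientGroup.mk' T (icl (e.symm (h * t) • I))) ^ θ t = 1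
    rw [key]
    have h2 := hT (e.symm h) _ (Mc_prod univ (fun t => e.symm t • I) (fun t _ => hnb _) θ).1 hθ'
    have h3 : e.symm h • ∏ t, (e.symm t • I) ^ θ t = ∏ t, (e.symm (h * t) • I) ^ θ t := by
      rw [Finset.smul_prod']
      apply Finset.prod_congr rfl
      intro t _
      rw [smul_pow', smul_smul, map_mul]
    rwa [h3] at h2) (by
    show QuotientGroup.mk' T (icl (e.symm 1 • I)) ≠ 1
    rw [map_one, one_smul]
    intro h1
    exact hI ((QuotientGroup.eq_one_iff _).1 h1))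
  refine ⟨Ω, iF, iC, iA, φ, ?_⟩
  intro θ hθ
  have h1 : ∏ t, (QuotientGroup.mk' T (icl (e.symm t • I))) ^ θ (e.symm t) = 1 := by
    rw [key1, (Mc_prod univ (fun t => e.symm t • I) (fun t _ => hnb _) _).2]
    have h2 : ∏ t, icl (e.symm t • I) ^ θ (e.symm t) = ∏ g, icl (g • I) ^ θ g :=
      Fintype.prod_equiv e.symm.toEquiv _ _ (fun t => rfl)
    rw [h2]
    exact hθ
  have h3 := hφ (fun t => θ (e.symm t)) h1
  rw [← h3]
  apply Fintype.sum_equiv e.toEquiv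
  intro g
  show (θ g : Ω) * (φ (IsCyclotomicExtension.Rat.galEquivZMod N C g) : Ω) = (θ (e.symm (e g)) : Ω) * (φ (e g) : Ω)
  rw [e.symm_apply_apply, he]

end H78M
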