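import Pool.Agent.H78.MG.Df

/-!
Row MgRa: roots of unity of `C = ℚ(ζ_N)`, `N = M p^(n+1)`, and the group `H`. Compare `Pool/Agent/H55/T3/Mr.lean` (there `M = 3`).
-/

set_option autoImplicit false
open scoped Classical Pointwise

open IsDedekindDomain NumberField Finset

namespace H78M

theorem pow_of_coprime {C : Type*} [Field C] {l a b : ℕ} (hab : a.Coprime b) {x : C} (hx : x ≠ 0)
    (ha : ∃ s, x ^ a = s ^ l) (hb : ∃ s, x ^ b = s ^ l) : ∃ s, x = s ^ l := by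
  obtain ⟨s, hs⟩ := ha
  obtain ⟨t, ht⟩ := hb
  have h1 : IsCoprime (a : ℤ) (b : ℤ) := Nat.isCoprime_iff_coprime.2 hab
  obtain ⟨u, v, huv⟩ := h1
  refine ⟨s ^ u * t ^ v, ?_⟩
  calc x = x ^ (u * (a : ℤ) + v * (b : ℤ)) := by rw [huv, zpow_one]
    _ = (x ^ a) ^ u * (x ^ b) ^ v := by
      rw [zpow_add₀ hx, mul_comm u, mul_comm v, zpow_mul, zpow_mul, zpow_natCast, zpow_natCast]
    _ = (s ^ l) ^ u * (t ^ l) ^ v := by rw [hs, ht]
    _ = (s ^ u * t ^ v) ^ l := by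
      rw [mul_pow]
      congr 1
      · rw [← zpow_natCast s l, ← zpow_natCast (s ^ u) l, ← zpow_mul, ← zpow_mul, mul_comm]
      · rw [← zpow_natCast t l, ← zpow_natCast (t ^ v) l, ← zpow_mul, ← zpow_mul, mul_comm]

variable {l p M m n : ℕ} [Fact l.Prime] [Fact p.Prime] [NeZero M] {C : Type} [Field C] [NumberField C]
  [IsCyclotomicExtension {M * p ^ (n + 1)} ℚ C]

theorem card_InH (hpM : p.Coprime M) (hmn : m ≤ n) :
    (univ.filter (fun g : C ≃ₐ[ℚ] C => InH p M m n hmn g)).card = p ^ (n - m) := by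
  have hpp : p.Prime := Fact.out
  obtain ⟨f, hf⟩ : ∃ f : (ZMod (M * p ^ (n + 1)))ˣ →* (ZMod (M * p ^ (m + 1)))ˣ,
    f = ZMod.unitsMap (Nat.mul_dvd_mul_left M (pow_dvd_pow p (Nat.succ_le_succ hmn))) := ⟨_, rfl⟩
  have hsurj : Function.Surjective f := by
    rw [hf]
    exact ZMod.unitsMap_surjective _
  have hcard : (univ.filter (fun g : C ≃ₐ[ℚ] C => InH p M m n hmn g)).card = Nat.card f.ker := by
    rw [← Fintype.card_subtype, ← Nat.card_eq_fintype_card]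
    refine Nat.card_congr (Equiv.subtypeEquiv
      (IsCyclotomicExtension.Rat.galEquivZMod (M * p ^ (n + 1)) C).toEquiv ?_)
    intro g
    rw [MonoidHom.mem_ker, hf]
    rfl
  have h1 : Nat.card f.ker * (M * p ^ (m + 1)).totient = (M * p ^ (n + 1)).totient := by
    have h2 := Subgroup.card_mul_index f.ker
    rw [Subgroup.index_ker, MonoidHom.range_eq_top.2 hsurj, Subgroup.card_top] at h2
    rw [Nat.card_eq_fintype_card (α := (ZMod (M * p ^ (m + 1)))ˣ),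
      Nat.card_eq_fintype_card (α := (ZMod (M * p ^ (n + 1)))ˣ), ZMod.card_units_eq_totient,
      ZMod.card_units_eq_totient] at h2
    exact h2
  have htot : ∀ j : ℕ, (M * p ^ (j + 1)).totient = M.totient * (p ^ j * (p - 1)) := by
    intro j
    rw [Nat.totient_mul (Nat.Coprime.pow_right _ hpM.symm), Nat.totient_prime_pow_succ hpp]
  rw [htot, htot] at h1
  have h3 : Nat.card f.ker = p ^ (n - m) := by
    have h4 : p ^ n = p ^ (n - m) * p ^ m := by
      rw [← pow_add]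
      congr 1
      omega
    rw [h4] at h1
    have h5 : 0 < M.totient * (p ^ m * (p - 1)) := by
      have : 0 < p - 1 := by
        have := hpp.two_le
        omega
      have : 0 < p ^ m := pow_pos hpp.pos _
      have : 0 < M.totient := Nat.totient_pos.2 (Nat.pos_of_ne_zero (NeZero.ne M))
      positivity
    apply Nat.eq_of_mul_eq_mul_right h5
    rw [h1]
    ring
  rw [hcard, h3]

theorem root_pow (hl2 : l ≠ 2) (hlp : l ≠ p) (hpM : p.Coprime M) (hmn : m ≤ n) {ξ : C} (hξ : IsOfFinOrder ξ)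
    (hH : ∃ s, ∏ g ∈ univ.filter (fun g : C ≃ₐ[ℚ] C => InH p M m n hmn g), g ξ = s ^ l) : ∃ s, ξ = s ^ l := by
  have hpp : p.Prime := Fact.out
  have hlpr : l.Prime := Fact.out
  have hr0 : 0 < orderOf ξ := hξ.orderOf_pos
  have hξ0 : ξ ≠ 0 := by
    rintro rfl
    have := pow_orderOf_eq_one (0 : C)
    rw [zero_pow hr0.ne'] at this
    exact zero_ne_one this
  have hroot : IsPrimitiveRoot ξ (orderOf ξ) := IsPrimitiveRoot.orderOf ξ
  have hdvd : orderOf ξ ∣ 2 * (M * p ^ (n + 1)) :=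
    hroot.dvd_of_isCyclotomicExtension (M * p ^ (n + 1)) hr0.ne'
  obtain ⟨b, r', hr', hrr⟩ := Nat.exists_eq_pow_mul_and_not_dvd hr0.ne' l hlpr.ne_one
  have hcop : (l ^ b).Coprime r' := Nat.Coprime.pow_left _ ((Nat.Prime.coprime_iff_not_dvd hlpr).2 hr')
  have hlr' : r'.Coprime l := ((Nat.Prime.coprime_iff_not_dvd hlpr).2 hr').symm
  -- (i)
  have h1 : ∃ s, ξ ^ (l ^ b) = s ^ l := by
    apply pow_of_coprime hlr' (pow_ne_zero _ hξ0)
    · refine ⟨1, ?_⟩
      rw [← pow_mul, ← hrr, pow_orderOf_eq_one, one_pow]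
    · exact ⟨_, rfl⟩
  -- (ii)
  have hbM : l ^ b ∣ M := by
    have h2 : l ^ b ∣ 2 * (M * p ^ (n + 1)) := (Dvd.intro _ hrr.symm).trans hdvd
    have h3 : (l ^ b).Coprime 2 := Nat.Coprime.pow_left _ ((Nat.coprime_primes hlpr Nat.prime_two).2 hl2)
    have h4 : (l ^ b).Coprime (p ^ (n + 1)) :=
      Nat.Coprime.pow_left _ (Nat.Coprime.pow_right _ ((Nat.coprime_primes hlpr hpp).2 hlp))
    exact h4.dvd_of_dvd_mul_right (h3.dvd_of_dvd_mul_left h2)
  have hη : (ξ ^ r') ^ (l ^ b) = 1 := by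
    rw [← pow_mul, mul_comm, ← hrr, pow_orderOf_eq_one]
  have hfix : ∀ g : C ≃ₐ[ℚ] C, InH p M m n hmn g → g (ξ ^ r') = ξ ^ r' := by
    intro g hg
    have h2 : (ξ ^ r') ^ (M * p ^ (n + 1)) = 1 := by
      obtain ⟨c, hc⟩ := hbM.mul_right (p ^ (n + 1))
      rw [hc, pow_mul, hη, one_pow]
    rw [IsCyclotomicExtension.Rat.galEquivZMod_apply_of_pow_eq (M * p ^ (n + 1)) C g h2]
    unfold InH at hg
    obtain ⟨a, ha⟩ : ∃ a : ℕ, a = ((IsCyclotomicExtension.Rat.galEquivZMod (M * p ^ (n + 1)) C g :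
      (ZMod (M * p ^ (n + 1)))ˣ) : ZMod (M * p ^ (n + 1))).val := ⟨_, rfl⟩
    rw [← ha]
    have h3 : ((a : ℕ) : ZMod (M * p ^ (m + 1))) = 1 := by
      have h4 := congrArg (fun u : (ZMod (M * p ^ (m + 1)))ˣ => (u : ZMod (M * p ^ (m + 1)))) hg
      simp only [ZMod.unitsMap_def, Units.coe_map, Units.val_one] at h4
      have h5 : ((kp (M * p ^ (n + 1)) g : (ZMod (M * p ^ (n + 1)))ˣ) : ZMod (M * p ^ (n + 1))) =
          ((a : ℕ) : ZMod (M * p ^ (n + 1))) := by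
        rw [ha, ZMod.natCast_val, ZMod.cast_id]
      rw [h5] at h4
      simpa using h4
    have h6 : a ≡ 1 [MOD M * p ^ (m + 1)] := by
      rw [← ZMod.natCast_eq_natCast_iff]
      simpa using h3
    have h7 : a ≡ 1 [MOD l ^ b] := (h6.of_mul_right _).of_dvd hbM
    have h8 : orderOf (ξ ^ r') ∣ l ^ b := orderOf_dvd_of_pow_eq_one hη
    have h9 : a ≡ 1 [MOD orderOf (ξ ^ r')] := h7.of_dvd h8
    have h10 : (ξ ^ r') ^ a = (ξ ^ r') ^ 1 := by
      rw [← pow_mod_orderOf (ξ ^ r') a, ← pow_mod_orderOf (ξ ^ r') 1]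
      exact congrArg (fun k => (ξ ^ r') ^ k) h9
    rw [h10, pow_one]
  have h11 : ∃ s, ξ ^ r' = s ^ l := by
    obtain ⟨s, hs⟩ := hH
    have h12 : (ξ ^ r') ^ (p ^ (n - m)) = (s ^ r') ^ l := by
      have e1 : ∏ g ∈ univ.filter (fun g : C ≃ₐ[ℚ] C => InH p M m n hmn g), (g ξ) ^ r' =
          ∏ _g ∈ univ.filter (fun g : C ≃ₐ[ℚ] C => InH p M m n hmn g), ξ ^ r' := by
        apply Finset.prod_congr rfl
        intro g hg
        rw [← map_pow]
        exact hfix g (Finset.mem_filter.1 hg).2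
      rw [Finset.prod_pow, hs, Finset.prod_const, card_InH (C := C) hpM hmn] at e1
      rw [← e1, ← pow_mul, ← pow_mul, mul_comm]
    have h13 : (p ^ (n - m)).Coprime l := Nat.Coprime.pow_left _ ((Nat.coprime_primes hpp hlpr).2 (Ne.symm hlp))
    exact pow_of_coprime h13 (pow_ne_zero _ hξ0) ⟨_, h12⟩ ⟨_, rfl⟩
  exact pow_of_coprime hcop hξ0 h1 h11

end H78M
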