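import Pool.Agent.H78.MG.Df

/-!
Row MgSb (about 130 lines): decomposition of the character. ADAPT `Pool/Agent/H55/T3/Md.lean` (`Md_inj`, `Md_exists`, `exists_prim`; there `M = 3`).

PROOF. `M` and `q = p^(n+1)` are coprime. As in `Md_exists` (with the Chinese remainder isomorphism `ZMod (M * q) ≃+* ZMod M × ZMod q`) there are homomorphisms `e1 : (ZMod M)ˣ →* (ZMod (M q))ˣ`, `e2 : (ZMod q)ˣ →* (ZMod (M q))ˣ`
with `e1 v = v mod M`, `= 1 mod q`, `e2 u = 1 mod M`, `= u mod q`; by joint injectivity (`Md_inj`) `t = e1 (t mod M) * e2 (t mod q)`. Put `ψ = φ ∘ e1`, `χ0 = φ ∘ e2`: `φ t = ψ (t mod M) χ0 (t mod q)`.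
`χ0(-1) = φ(e2(-1)) = 1` by `h2`. `ψ(-1) = φ(e1(-1))`, `e1(-1) * e2(-1) = -1`, so `ψ(-1) = -1` by `h1`.
`χ0` is non trivial on the kernel of `(ZMod p^(n+1))ˣ → (ZMod p^(m+1))ˣ`: `h` in `h3` is `1` modulo `M p^(m+1)`, so `h mod M = 1`, `φ h = χ0 (h mod q)`, and `h mod q` is `1` modulo `p^(m+1)` (`ZMod.unitsMap_comp`).
`H5SW.factor_level`: `k`, `χ`, `χ0 = χ ∘ unitsMap`; compose (`ZMod.unitsMap_comp`).
-/

set_option autoImplicit false
open scoped Classical

open Finset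

namespace H78M

/-- joint injectivity -/
private theorem MgSb_inj {M f : ℕ} (h : Nat.Coprime M f) {t t' : (ZMod (M * f))ˣ}
    (h1 : ZMod.unitsMap (dvd_mul_right M f) t = ZMod.unitsMap (dvd_mul_right M f) t')
    (h2 : ZMod.unitsMap (dvd_mul_left f M) t = ZMod.unitsMap (dvd_mul_left f M) t') : t = t' := by
  have c1 := Subsingleton.elim ((RingHom.fst _ _).comp (ZMod.chineseRemainder h).toRingHom)
    (ZMod.castHom (dvd_mul_right M f) (ZMod M))
  have c2 := Subsingleton.elim ((RingHom.snd _ _).comp (ZMod.chineseRemainder h).toRingHom)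
    (ZMod.castHom (dvd_mul_left f M) (ZMod f))
  have e1 := congrArg Units.val h1
  have e2 := congrArg Units.val h2
  apply Units.ext
  apply (ZMod.chineseRemainder h).injective
  apply Prod.ext
  · have a1 := RingHom.congr_fun c1 (t : ZMod (M * f))
    have a2 := RingHom.congr_fun c1 (t' : ZMod (M * f))
    exact a1.trans (e1.trans a2.symm)
  · have a1 := RingHom.congr_fun c2 (t : ZMod (M * f))
    have a2 := RingHom.congr_fun c2 (t' : ZMod (M * f))
    exact a1.trans (e2.trans a2.symm)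

/-- the units with prescribed images -/
private theorem MgSb_exists {M f : ℕ} (h : Nat.Coprime M f) :
    ∃ (e1 : (ZMod M)ˣ →* (ZMod (M * f))ˣ) (e2 : (ZMod f)ˣ →* (ZMod (M * f))ˣ),
      (∀ v, ZMod.unitsMap (dvd_mul_right M f) (e1 v) = v ∧
        ZMod.unitsMap (dvd_mul_left f M) (e1 v) = 1) ∧
      (∀ u, ZMod.unitsMap (dvd_mul_right M f) (e2 u) = 1 ∧
        ZMod.unitsMap (dvd_mul_left f M) (e2 u) = u) := by
  have c1 := Subsingleton.elim ((RingHom.fst _ _).comp (ZMod.chineseRemainder h).toRingHom)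
    (ZMod.castHom (dvd_mul_right M f) (ZMod M))
  have c2 := Subsingleton.elim ((RingHom.snd _ _).comp (ZMod.chineseRemainder h).toRingHom)
    (ZMod.castHom (dvd_mul_left f M) (ZMod f))
  have key : ∀ (v : (ZMod M)ˣ) (u : (ZMod f)ˣ),
      ZMod.unitsMap (dvd_mul_right M f) (Units.map
        ((ZMod.chineseRemainder h).symm.toRingHom : _ →* _)
        ((MulEquiv.prodUnits (M := ZMod M) (N := ZMod f)).symm (v, u))) = v ∧
      ZMod.unitsMap (dvd_mul_left f M) (Units.map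
        ((ZMod.chineseRemainder h).symm.toRingHom : _ →* _)
        ((MulEquiv.prodUnits (M := ZMod M) (N := ZMod f)).symm (v, u))) = u := by
    intro v u
    constructor
    · apply Units.ext
      have a1 := RingHom.congr_fun c1
        ((ZMod.chineseRemainder h).symm ((v : ZMod M), (u : ZMod f)))
      refine a1.symm.trans ?_
      change ((ZMod.chineseRemainder h) ((ZMod.chineseRemainder h).symm _)).1 = _
      rw [RingEquiv.apply_symm_apply]
    · apply Units.ext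
      have a1 := RingHom.congr_fun c2
        ((ZMod.chineseRemainder h).symm ((v : ZMod M), (u : ZMod f)))
      refine a1.symm.trans ?_
      change ((ZMod.chineseRemainder h) ((ZMod.chineseRemainder h).symm _)).2 = _
      rw [RingEquiv.apply_symm_apply]
  refine ⟨(Units.map ((ZMod.chineseRemainder h).symm.toRingHom : _ →* _)).comp
    ((MulEquiv.prodUnits (M := ZMod M) (N := ZMod f)).symm.toMonoidHom.comp
      (MonoidHom.inl (ZMod M)ˣ (ZMod f)ˣ)),
    (Units.map ((ZMod.chineseRemainder h).symm.toRingHom : _ →* _)).comp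
    ((MulEquiv.prodUnits (M := ZMod M) (N := ZMod f)).symm.toMonoidHom.comp
      (MonoidHom.inr (ZMod M)ˣ (ZMod f)ˣ)), fun v => key v 1, fun u => key 1 u⟩

theorem exists_dec {p M m n : ℕ} [Fact p.Prime] [NeZero M] (hp2 : p ≠ 2) (hpM : p.Coprime M) (hmn : m ≤ n)
    {Ω : Type*} [Field Ω] (φ : (ZMod (M * p ^ (n + 1)))ˣ →* Ωˣ) (h1 : φ (-1) = -1)
    (h2 : ∀ t, ZMod.unitsMap (dvd_mul_right M (p ^ (n + 1))) t = 1 →
      ZMod.unitsMap (dvd_mul_left (p ^ (n + 1)) M) t = -1 → φ t = 1)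
    (h3 : ∃ h, ZMod.unitsMap (Nat.mul_dvd_mul_left M (pow_dvd_pow p (Nat.succ_le_succ hmn))) h = 1 ∧ φ h ≠ 1) :
    ∃ k, m < k ∧ ∃ hkn : k ≤ n, ∃ (χ : (ZMod (p ^ (k + 1)))ˣ →* Ωˣ) (ψ : (ZMod M)ˣ →* Ωˣ),
      χ (-1) = 1 ∧ H5SW.Prim χ ∧ ψ (-1) = -1 ∧ ∀ t : (ZMod (M * p ^ (n + 1)))ˣ,
        φ t = ψ (ZMod.unitsMap (dvd_mul_right M (p ^ (n + 1))) t) *
          χ (ZMod.unitsMap (Dvd.dvd.mul_left (pow_dvd_pow p (Nat.succ_le_succ hkn)) M) t) := by
  have hcop : Nat.Coprime M (p ^ (n + 1)) := Nat.Coprime.pow_right _ hpM.symm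
  obtain ⟨e1, e2, he1, he2⟩ := MgSb_exists hcop
  have key : ∀ t : (ZMod (M * p ^ (n + 1)))ˣ,
      φ t = (φ.comp e1) (ZMod.unitsMap (dvd_mul_right M (p ^ (n + 1))) t) *
        (φ.comp e2) (ZMod.unitsMap (dvd_mul_left (p ^ (n + 1)) M) t) := by
    intro t
    rw [MonoidHom.comp_apply, MonoidHom.comp_apply, ← map_mul]
    congr 1
    refine MgSb_inj hcop ?_ ?_
    · rw [map_mul, (he1 _).1, (he2 _).1, mul_one]
    · rw [map_mul, (he1 _).2, (he2 _).2, one_mul]
  have hev : (φ.comp e2) (-1) = 1 := by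
    rw [MonoidHom.comp_apply]
    exact h2 _ (he2 _).1 (he2 _).2
  have comp : ∀ {a b c : ℕ} (h1 : a ∣ b) (h2 : b ∣ c) (t : (ZMod c)ˣ),
      ZMod.unitsMap h1 (ZMod.unitsMap h2 t) = ZMod.unitsMap (h1.trans h2) t := by
    intro a b c h1 h2 t
    rw [← ZMod.unitsMap_comp h1 h2]
    rfl
  have hneg : ∀ {a b : ℕ} (h : a ∣ b), ZMod.unitsMap h (-1 : (ZMod b)ˣ) = -1 := by
    intro a b h
    apply Units.ext
    rw [ZMod.unitsMap_def, Units.coe_map]
    change (ZMod.castHom h (ZMod a)) (-1) = -1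
    rw [map_neg, map_one]
  have hodd : (φ.comp e1) (-1) = -1 := by
    have h := key (-1)
    rw [hneg, hneg, hev, mul_one, h1] at h
    exact h.symm
  have hm : ∃ u, ZMod.unitsMap (pow_dvd_pow p (Nat.succ_le_succ hmn)) u = 1 ∧
      (φ.comp e2) u ≠ 1 := by
    obtain ⟨h, hh1, hh2⟩ := h3
    have hv : ZMod.unitsMap (dvd_mul_right M (p ^ (n + 1))) h = 1 := by
      have := comp (dvd_mul_right M (p ^ (m + 1)))
        (Nat.mul_dvd_mul_left M (pow_dvd_pow p (Nat.succ_le_succ hmn))) h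
      rw [hh1, map_one] at this
      exact this.symm
    refine ⟨ZMod.unitsMap (dvd_mul_left (p ^ (n + 1)) M) h, ?_, ?_⟩
    · rw [comp]
      have := comp (dvd_mul_left (p ^ (m + 1)) M)
        (Nat.mul_dvd_mul_left M (pow_dvd_pow p (Nat.succ_le_succ hmn))) h
      rw [hh1, map_one] at this
      exact this.symm
    · intro h0
      apply hh2
      rw [key h, hv, map_one, one_mul]
      exact h0
  obtain ⟨k, hmk, hkn, χ, hχ, hev', hprim⟩ :=
    H5SW.factor_level hp2 hmn (φ.comp e2) hev hm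
  refine ⟨k, hmk, hkn, χ, φ.comp e1, hev', hprim, hodd, fun t => ?_⟩
  rw [key t, hχ, MonoidHom.comp_apply χ, comp]

end H78M
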