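import Pool.Agent.H78.MG.Df
import Pool.Agent.H55.T3.Mf

/-!
Row MgSd (about 100 lines): `g(1) B` as a sum over all `t < N`. Compare `H55T3.Bm_half` in `Pool/Agent/H55/T3/Mf.lean` (use from it only `H55T3.g_nonunit`).

PROOF. `N = M p^(n+1)`, `g(x) = H5SW.T2_g χ z x`, `g(v x) = χ(v)⁻¹ g(x)` (`H5SW.T2_g_mul`). Multiply the definition of `Bm` by `g(1)`. The map `t ↦ t.val` is injective from the units of `ZMod N` to `range N` with image the `t < N` prime to `N`.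
For a unit `t`: `φ(t)⁻¹ g(1) = ψ(t mod M)⁻¹ (χ(t mod p^(k+1))⁻¹ g(1)) = cf ψ (t.val : ZMod M) g((t.val : ZMod (p^(k+1))))` (`cf_unit`, `ZMod.unitsMap_val`, `ZMod.natCast_val`).
For `t < N` not prime to `N`: either `t` is not prime to `M`, then `cf ψ t = 0` (`cf_nonunit`, `ZMod.isUnit_iff_coprime`), or `p ∣ t`, then `(t : ZMod (p^(k+1)))` is not a unit and `g = 0` (`g_nonunit`).
(`Finset.sum_of_injOn` as in `Bm_half`.)
-/

set_option autoImplicit false
open scoped Classical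

open Finset

namespace H78M

theorem Bm_sum {p M a n k : ℕ} [Fact p.Prime] [NeZero M] (hkn : k ≤ n) {Ω : Type*} [Field Ω] {z : Ω}
    (φ : (ZMod (M * p ^ (n + 1)))ˣ →* Ωˣ) (χ : (ZMod (p ^ (k + 1)))ˣ →* Ωˣ) (ψ : (ZMod M)ˣ →* Ωˣ)
    (hprim : H5SW.Prim χ)
    (hφ : ∀ t : (ZMod (M * p ^ (n + 1)))ˣ, φ t = ψ (ZMod.unitsMap (dvd_mul_right M (p ^ (n + 1))) t) *
      χ (ZMod.unitsMap (Dvd.dvd.mul_left (pow_dvd_pow p (Nat.succ_le_succ hkn)) M) t)) :
    H5SW.T2_g χ z 1 * Bm (M * p ^ (n + 1)) a φ =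
      ∑ t ∈ range (M * p ^ (n + 1)), cf ψ (t : ZMod M) * ((t / a : ℕ) : Ω) *
        H5SW.T2_g χ z (t : ZMod (p ^ (k + 1))) := by
  have hpp : p.Prime := Fact.out
  have hdv : p ^ (k + 1) ∣ M * p ^ (n + 1) := Dvd.dvd.mul_left (pow_dvd_pow p (Nat.succ_le_succ hkn)) M
  unfold Bm
  rw [Finset.mul_sum]
  refine Finset.sum_of_injOn
    (fun t : (ZMod (M * p ^ (n + 1)))ˣ => (t : ZMod (M * p ^ (n + 1))).val) ?_ ?_ ?_ ?_
  · intro t _ t' _ h
    exact Units.ext (ZMod.val_injective _ h)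
  · intro t _
    show (t : ZMod (M * p ^ (n + 1))).val ∈ (range (M * p ^ (n + 1)) : Set ℕ)
    rw [mem_coe, mem_range]
    exact ZMod.val_lt _
  · intro t ht hnt
    rw [mem_range] at ht
    have hnc : ¬ Nat.Coprime t (M * p ^ (n + 1)) := by
      intro hc
      apply hnt
      refine ⟨ZMod.unitOfCoprime t hc, ?_, ?_⟩
      · rw [mem_coe]
        exact mem_univ _
      · show ((ZMod.unitOfCoprime t hc : (ZMod (M * p ^ (n + 1)))ˣ) : ZMod (M * p ^ (n + 1))).val = t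
        rw [ZMod.coe_unitOfCoprime, ZMod.val_natCast, Nat.mod_eq_of_lt ht]
    by_cases hM : Nat.Coprime t M
    · have hp' : ¬ Nat.Coprime t (p ^ (n + 1)) := fun h => hnc (Nat.Coprime.mul_right hM h)
      have hp'' : ¬ IsUnit ((t : ℕ) : ZMod (p ^ (k + 1))) := by
        rw [ZMod.isUnit_iff_coprime]
        intro h
        exact hp' (Nat.Coprime.pow_right _
          (Nat.Coprime.coprime_dvd_right (dvd_pow_self p (Nat.succ_ne_zero k)) h))
      rw [H55T3.g_nonunit χ hprim _ hp'', mul_zero]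
    · have hM' : ¬ IsUnit ((t : ℕ) : ZMod M) := by
        rw [ZMod.isUnit_iff_coprime]
        exact hM
      rw [cf_nonunit ψ hM', zero_mul, zero_mul]
  · intro t _
    have h1 : ((((t : ZMod (M * p ^ (n + 1))).val : ℕ)) : ZMod M) =
        ((ZMod.unitsMap (dvd_mul_right M (p ^ (n + 1))) t : (ZMod M)ˣ) : ZMod M) := by
      rw [ZMod.unitsMap_val, ZMod.natCast_val]
    have h2 : ((((t : ZMod (M * p ^ (n + 1))).val : ℕ)) : ZMod (p ^ (k + 1))) =
        ((ZMod.unitsMap hdv t : (ZMod (p ^ (k + 1)))ˣ) : ZMod (p ^ (k + 1))) := by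
      rw [ZMod.unitsMap_val, ZMod.natCast_val]
    have h3 := H5SW.T2_g_mul χ z (ZMod.unitsMap hdv t) 1
    rw [mul_one] at h3
    rw [h1, cf_unit, h2, h3, hφ t, mul_inv, Units.val_mul]
    ring

end H78M
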