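import Pool.Agent.H78.MG.Sc
import Pool.Agent.H78.MG.Sd
import Pool.Agent.H46.TS.TC

/-!
Row MgSe (about 110 lines): the Fourier formula. Use only the STATEMENTS of Sc (`arith_sum`), Sd (`Bm_sum`), TC (`H46TS.Fc_inv`). Compare `H55T3.fourier` in `Pool/Agent/H55/T3/Mf.lean`.

PROOF. `Bm_sum`; unfold `T2_g χ z (t : ZMod f') = ∑_b χ(b) z^((t b).val)`, `f' = p^(k+1)`, `z^((t * b).val) = (z^b.val)^t` (`H5SW.T2_pow`), exchange the sums: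
`g(1) B = ∑_b χ(b) ∑_{t<N} cf ψ t (t/a) w_b^t`, `w_b = z^b.val`. `w_b^(p^(n+1)) = 1` as `p^(k+1) ∣ p^(n+1)`; `w_b^M ≠ 1`: otherwise `p^(k+1) ∣ b.val * M` (`IsPrimitiveRoot.pow_eq_one_iff_dvd`), `p` prime to `M` and to `b.val`
(`ZMod.val_coe_unit_coprime`): impossible. `arith_sum`: `= - (M/a) p^(n+1) ∑_b χ(b) Fc (cf ψ) w_b`.
`H5SW.T2_half` (`f'` odd, `1 < f'`): `∑_b χ(b) F(w_b) = ∑_{b ∈ Hf} (χ(b) F(w_b) + χ(-b) F(w_{-b})) = 2 Tc (cf ψ) χ z`, as `χ(-b) = χ(b)`, `w_{-b} = w_b⁻¹`, and `Fc_inv` (`hodd`, `h0`).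
-/

set_option autoImplicit false
open scoped Classical

open Finset

namespace H78M

theorem fourier {p M a n k : ℕ} [Fact p.Prime] [NeZero M] (hp2 : p ≠ 2) (hpM : p.Coprime M) (ha : a ∣ M)
    (hkn : k ≤ n) {Ω : Type*} [Field Ω] {z : Ω} (hz : IsPrimitiveRoot z (p ^ (k + 1)))
    (φ : (ZMod (M * p ^ (n + 1)))ˣ →* Ωˣ) (χ : (ZMod (p ^ (k + 1)))ˣ →* Ωˣ) (ψ : (ZMod M)ˣ →* Ωˣ)
    (hev : χ (-1) = 1) (hprim : H5SW.Prim χ) (hodd : ∀ a : ZMod M, cf ψ (-a) = - cf ψ a) (h0 : cf ψ 0 = 0)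
    (hφ : ∀ t : (ZMod (M * p ^ (n + 1)))ˣ, φ t = ψ (ZMod.unitsMap (dvd_mul_right M (p ^ (n + 1))) t) *
      χ (ZMod.unitsMap (Dvd.dvd.mul_left (pow_dvd_pow p (Nat.succ_le_succ hkn)) M) t)) :
    H5SW.T2_g χ z 1 * Bm (M * p ^ (n + 1)) a φ =
      - (2 * ((M / a * p ^ (n + 1) : ℕ) : Ω) * H46TS.Tc (cf ψ) χ z) := by
  have hpp : p.Prime := Fact.out
  have hf1 : 1 < p ^ (k + 1) := Nat.one_lt_pow (Nat.succ_ne_zero k) hpp.one_lt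
  have : Fact (1 < p ^ (k + 1)) := ⟨hf1⟩
  have hodd' : Odd (p ^ (k + 1)) := (hpp.odd_of_ne_two hp2).pow
  have hzf : z ^ (p ^ (k + 1)) = 1 := hz.pow_eq_one
  have hdv : p ^ (k + 1) ∣ p ^ (n + 1) := pow_dvd_pow p (Nat.succ_le_succ hkn)
  rw [Bm_sum hkn φ χ ψ hprim hφ]
  have hz0 : z ≠ 0 := hz.ne_zero (pow_pos hpp.pos _).ne'
  have hw0 : ∀ b : (ZMod (p ^ (k + 1)))ˣ, z ^ (b : ZMod (p ^ (k + 1))).val ≠ 0 :=
    fun b => pow_ne_zero _ hz0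
  have hwM : ∀ b : (ZMod (p ^ (k + 1)))ˣ, (z ^ (b : ZMod (p ^ (k + 1))).val) ^ M ≠ 1 := by
    intro b h
    rw [← pow_mul, hz.pow_eq_one_iff_dvd] at h
    have hb := ZMod.val_coe_unit_coprime b
    have h1 : p ∣ (b : ZMod (p ^ (k + 1))).val * M :=
      dvd_trans (dvd_pow_self p (Nat.succ_ne_zero k)) h
    rcases (Nat.Prime.dvd_mul hpp).1 h1 with h2 | h2
    · have h3 := Nat.Coprime.coprime_dvd_right (dvd_pow_self p (Nat.succ_ne_zero k)) hb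
      exact (Nat.Prime.coprime_iff_not_dvd hpp).1 h3.symm h2
    · exact (Nat.Prime.coprime_iff_not_dvd hpp).1 hpM h2
  have hwP : ∀ b : (ZMod (p ^ (k + 1)))ˣ,
      (z ^ (b : ZMod (p ^ (k + 1))).val) ^ (p ^ (n + 1)) = 1 := by
    intro b
    obtain ⟨c, hc⟩ := hdv
    rw [← pow_mul, mul_comm, hc, mul_assoc, pow_mul, hzf, one_pow]
  have e1 : ∀ t ∈ range (M * p ^ (n + 1)), cf ψ (t : ZMod M) * ((t / a : ℕ) : Ω) *
        H5SW.T2_g χ z (t : ZMod (p ^ (k + 1))) =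
      ∑ b : (ZMod (p ^ (k + 1)))ˣ, (χ b : Ω) * (cf ψ (t : ZMod M) * ((t / a : ℕ) : Ω) *
        (z ^ (b : ZMod (p ^ (k + 1))).val) ^ t) := by
    intro t _
    unfold H5SW.T2_g
    rw [Finset.mul_sum]
    refine Finset.sum_congr rfl fun b _ => ?_
    have h1 : z ^ ((t : ZMod (p ^ (k + 1))) * b : ZMod (p ^ (k + 1))).val =
        z ^ ((b : ZMod (p ^ (k + 1))).val * t) := by
      apply H5SW.T2_pow hzf
      push_cast
      rw [ZMod.natCast_zmod_val, ZMod.natCast_zmod_val]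
      ring
    rw [h1, pow_mul]
    ring
  rw [Finset.sum_congr rfl e1, Finset.sum_comm]
  have e2 : ∀ b : (ZMod (p ^ (k + 1)))ˣ, ∑ t ∈ range (M * p ^ (n + 1)), (χ b : Ω) *
      (cf ψ (t : ZMod M) * ((t / a : ℕ) : Ω) * (z ^ (b : ZMod (p ^ (k + 1))).val) ^ t) =
      -((M / a * p ^ (n + 1) : ℕ) : Ω) * ((χ b : Ω) *
        H46TS.Fc (cf ψ) (z ^ (b : ZMod (p ^ (k + 1))).val)) := by
    intro b
    rw [← Finset.mul_sum, arith_sum ha (cf ψ) (hwP b) (hwM b)]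
    ring
  rw [Finset.sum_congr rfl (fun b _ => e2 b), ← Finset.mul_sum, ← H5SW.T2_half hodd' hf1]
  unfold H46TS.Tc
  rw [Finset.mul_sum, Finset.mul_sum, ← Finset.sum_neg_distrib]
  refine Finset.sum_congr rfl fun b _ => ?_
  have hχ : χ (-b) = χ b := by rw [← neg_one_mul, map_mul, hev, one_mul]
  have hneg : z ^ ((-b : (ZMod (p ^ (k + 1)))ˣ) : ZMod (p ^ (k + 1))).val =
      (z ^ (b : ZMod (p ^ (k + 1))).val)⁻¹ := by
    apply eq_inv_of_mul_eq_one_left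
    rw [← pow_add]
    have h1 : z ^ (((-b : (ZMod (p ^ (k + 1)))ˣ) : ZMod (p ^ (k + 1))).val +
        (b : ZMod (p ^ (k + 1))).val) = z ^ 0 := by
      apply H5SW.T2_pow hzf
      push_cast
      rw [ZMod.natCast_zmod_val, ZMod.natCast_zmod_val]
      ring
    rw [h1, pow_zero]
  rw [hχ, hneg, H46TS.Fc_inv hodd h0 (hw0 b)]
  ring

end H78M
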