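import Pool.Agent.H78.MG.Sa
import Pool.Agent.H78.MG.Sb
import Pool.Agent.H78.MG.Se
import Pool.Agent.H78.MG.Sg

/-!
Row MgSf (about 120 lines): some Stickelberger sum does not vanish. Use only the STATEMENTS of Sa, Sb, Se, Sg. Compare `H55T3.exists_St_ne` in `Pool/Agent/H55/T3/Mz.lean`.

PROOF. `N = M p^(n+1)`, `M = a * f` with `a` a power of `l` and `¬ l ∣ f` (`Nat.exists_eq_pow_mul_and_not_dvd`, `M ≠ 0`), `N / a = f p^(n+1)` is not zero in `Ω` (`H46TS.cast_ne`, `CharP.cast_eq_zero_iff`).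
`exists_dec`: `k`, `χ`, `ψ`. `good` (with `hs0 Ω ψ`). `z` a primitive `p^(k+1)`-th root of unity in `Ω` (algebraically closed, `NeZero ((p^(k+1) : ℕ) : Ω)`: `HasEnoughRootsOfUnity.exists_primitiveRoot Ω (p^(k+1))`).
`hS k (k0 ≤ m + 1 ≤ k) Ω z hz (cf ψ) good χ hev hprim : Tc ≠ 0`; `fourier`: `g(1) B = -2 (N/a) Tc ≠ 0` (`2 ≠ 0` in `Ω` as `l ≠ 2`), so `Bm N a φ ≠ 0`.
Now choose `h`: if `a = 1` take `h = -1` (`φ(-1) = -1 ≠ 1`; `(-1).val = N - 1`, in `Ω`: `c - φ(h) = N - 1 + 1 = N ≠ 0`); `x % 1 = 0` for all `x`.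
If `a ≠ 1` take the `h` of `h3`: `h.val ≡ 1 mod M`, so `h.val % a = 1 % a` (`h` is `1` modulo `M`: `ZMod.unitsMap_comp`; `a ∣ M`), `(h.val : Ω) = 1` since `l ∣ a ∣ h.val - 1`, `c - φ(h) = 1 - φ(h) ≠ 0`.
`stick_formula` (`a ∣ N`): `(N/a) St = (c - φ h) B ≠ 0`, so `St ≠ 0`. `c = h.val` satisfies `c < N` (`ZMod.val_lt`), coprime (`ZMod.val_coe_unit_coprime`), `1 < c`: `c = 0` is impossible as `N > 1`, `c = 1` would give `h = 1`, `φ h = 1`.
(`N > 1` since `p ∣ N`.)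
-/

set_option autoImplicit false
open scoped Classical

open Finset

namespace H78M

theorem MgSf_mod {N K a : ℕ} [NeZero N] (hK : K ∣ N) (haK : a ∣ K) (h : (ZMod N)ˣ)
    (hh : ZMod.unitsMap hK h = 1) : (h : ZMod N).val % a = 1 % a := by
  have h1 : (((h : ZMod N).val : ℕ) : ZMod K) = ((1 : ℕ) : ZMod K) := by
    rw [ZMod.natCast_val, ← ZMod.unitsMap_val hK, hh, Units.val_one, Nat.cast_one]
  rw [ZMod.natCast_eq_natCast_iff] at h1
  exact h1.of_dvd haK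

theorem MgSf_h {l p M m n e f : ℕ} [Fact l.Prime] [Fact p.Prime] [NeZero M]
    (hmn : m ≤ n) (hM : M = l ^ e * f)
    {Ω : Type} [Field Ω] [CharP Ω l] (hl2 : l ≠ 2) (hf0 : ((f * p ^ (n + 1) : ℕ) : Ω) ≠ 0)
    (φ : (ZMod (M * p ^ (n + 1)))ˣ →* Ωˣ)
    (h1 : φ (-1) = -1)
    (h3 : ∃ h, ZMod.unitsMap (Nat.mul_dvd_mul_left M (pow_dvd_pow p (Nat.succ_le_succ hmn))) h = 1 ∧ φ h ≠ 1) :
    ∃ h : (ZMod (M * p ^ (n + 1)))ˣ, (h : ZMod (M * p ^ (n + 1))).val % (l ^ e) = 1 % (l ^ e) ∧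
      φ h ≠ 1 ∧ (((h : ZMod (M * p ^ (n + 1))).val : ℕ) : Ω) - (φ h : Ω) ≠ 0 := by
  have hlp : l.Prime := Fact.out
  have h2ne : (2 : Ω) ≠ 0 := by
    intro h
    have h2 : ((2 : ℕ) : Ω) = 0 := by exact_mod_cast h
    rw [CharP.cast_eq_zero_iff Ω l] at h2
    exact hl2 ((Nat.prime_dvd_prime_iff_eq hlp Nat.prime_two).1 h2)
  rcases Nat.eq_zero_or_pos e with he | he
  · subst he
    have hM' : M * p ^ (n + 1) = f * p ^ (n + 1) := by rw [hM, pow_zero, one_mul]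
    refine ⟨-1, by rw [pow_zero, Nat.mod_one, Nat.mod_one], ?_, ?_⟩
    · rw [h1]
      intro h
      have h2 := congrArg (fun x : Ωˣ => (x : Ω)) h
      simp only [Units.val_neg, Units.val_one] at h2
      apply h2ne
      linear_combination -h2
    · rw [h1, Units.val_neg, Units.val_one, Units.val_neg, Units.val_one, sub_neg_eq_add]
      have h4 : (((-1 : ZMod (M * p ^ (n + 1))).val + 1 : ℕ) : ZMod (M * p ^ (n + 1))) = 0 := by
        rw [Nat.cast_add, ZMod.natCast_zmod_val, Nat.cast_one, neg_add_cancel]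
      rw [ZMod.natCast_eq_zero_iff] at h4
      have h5 := ZMod.val_lt (-1 : ZMod (M * p ^ (n + 1)))
      have h6 := Nat.le_of_dvd (Nat.succ_pos _) h4
      have h7 : (-1 : ZMod (M * p ^ (n + 1))).val + 1 = M * p ^ (n + 1) := by omega
      have h8 : (((-1 : ZMod (M * p ^ (n + 1))).val : ℕ) : Ω) + 1 =
          (((-1 : ZMod (M * p ^ (n + 1))).val + 1 : ℕ) : Ω) := by push_cast; rfl
      rw [h8, h7, hM']
      exact hf0
  · obtain ⟨h, hh, hne⟩ := h3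
    have haK : l ^ e ∣ M * p ^ (m + 1) := by
      rw [hM]
      exact Dvd.dvd.mul_right (dvd_mul_right _ _) _
    have hmod := MgSf_mod _ haK h hh
    refine ⟨h, hmod, hne, ?_⟩
    have hlK : l ∣ M * p ^ (m + 1) := (dvd_pow_self l he.ne').trans haK
    have hmod2 := MgSf_mod _ hlK h hh
    have h4 : (((h : ZMod (M * p ^ (n + 1))).val : ℕ) : Ω) = 1 := by
      rw [CharP.cast_eq_mod Ω l, hmod2, ← CharP.cast_eq_mod Ω l, Nat.cast_one]
    rw [h4]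
    intro h5
    apply hne
    apply Units.ext
    rw [Units.val_one]
    exact (sub_eq_zero.1 h5).symm

theorem exists_St_ne {l p M k0 s0 m n : ℕ} [Fact l.Prime] [Fact p.Prime] [NeZero M] (hl2 : l ≠ 2) (hp2 : p ≠ 2)
    (hlp : l ≠ p) (hpM : p.Coprime M)
    (hs0 : ∀ (Ω : Type) [Field Ω] [CharP Ω l] (ψ : (ZMod M)ˣ →* Ωˣ) (t : (ZMod M)ˣ), (ψ t : Ω) ^ (l ^ s0) = ψ t)
    (hS : H46TS.NV l p M s0 k0) (hm : k0 ≤ m + 1) (hmn : m ≤ n)
    {Ω : Type} [Field Ω] [CharP Ω l] [IsAlgClosed Ω] (φ : (ZMod (M * p ^ (n + 1)))ˣ →* Ωˣ)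
    (h1 : φ (-1) = -1)
    (h2 : ∀ t, ZMod.unitsMap (dvd_mul_right M (p ^ (n + 1))) t = 1 →
      ZMod.unitsMap (dvd_mul_left (p ^ (n + 1)) M) t = -1 → φ t = 1)
    (h3 : ∃ h, ZMod.unitsMap (Nat.mul_dvd_mul_left M (pow_dvd_pow p (Nat.succ_le_succ hmn))) h = 1 ∧ φ h ≠ 1) :
    ∃ c, 1 < c ∧ c < M * p ^ (n + 1) ∧ c.Coprime (M * p ^ (n + 1)) ∧ St (M * p ^ (n + 1)) c φ ≠ 0 := by
  have hl : l.Prime := Fact.out
  have hpp : p.Prime := Fact.out
  obtain ⟨e, f, hf, hM⟩ := Nat.exists_eq_pow_mul_and_not_dvd (NeZero.ne M) l hl.ne_one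
  have ha0 : 0 < l ^ e := pow_pos hl.pos e
  have haM : l ^ e ∣ M := ⟨f, hM⟩
  have haN : l ^ e ∣ M * p ^ (n + 1) := Dvd.dvd.mul_right haM _
  have hMa : M / l ^ e = f := by
    rw [hM]
    exact Nat.mul_div_cancel_left f ha0
  have hNa : M * p ^ (n + 1) / l ^ e = f * p ^ (n + 1) := by
    rw [hM, mul_assoc]
    exact Nat.mul_div_cancel_left _ ha0
  have hf0 : ((f * p ^ (n + 1) : ℕ) : Ω) ≠ 0 := by
    rw [Nat.cast_mul]
    refine mul_ne_zero ?_ (H46TS.cast_ne hlp (n + 1) Ω)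
    intro h
    rw [CharP.cast_eq_zero_iff Ω l] at h
    exact hf h
  have h2ne : (2 : Ω) ≠ 0 := by
    intro h
    have h2 : ((2 : ℕ) : Ω) = 0 := by exact_mod_cast h
    rw [CharP.cast_eq_zero_iff Ω l] at h2
    exact hl2 ((Nat.prime_dvd_prime_iff_eq hl Nat.prime_two).1 h2)
  obtain ⟨k, hmk, hkn, χ, ψ, hev, hprim, hψ, hφ⟩ := exists_dec hp2 hpM hmn φ h1 h2 h3
  have hg := good hl2 hψ (hs0 Ω ψ)
  have : NeZero ((p ^ (k + 1) : ℕ) : Ω) := ⟨H46TS.cast_ne hlp (k + 1) Ω⟩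
  obtain ⟨z, hz⟩ := HasEnoughRootsOfUnity.exists_primitiveRoot Ω (p ^ (k + 1))
  have hT := hS k (by omega) Ω z hz (cf ψ) hg χ hev hprim
  have hF := fourier hp2 hpM haM hkn hz φ χ ψ hev hprim hg.odd hg.zero hφ
  rw [hMa] at hF
  have hB : Bm (M * p ^ (n + 1)) (l ^ e) φ ≠ 0 := by
    intro h0
    rw [h0, mul_zero] at hF
    have h5 := neg_eq_zero.1 hF.symm
    exact mul_ne_zero (mul_ne_zero h2ne hf0) hT h5
  obtain ⟨h, hmod, hne, hc⟩ := MgSf_h hmn hM hl2 hf0 φ h1 h3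
  have hcop := ZMod.val_coe_unit_coprime h
  have hN1 : 1 < M * p ^ (n + 1) := by
    have h4 : 1 < p ^ (n + 1) := Nat.one_lt_pow (Nat.succ_ne_zero n) hpp.one_lt
    have h5 : 0 < M := Nat.pos_of_ne_zero (NeZero.ne M)
    exact lt_of_lt_of_le h4 (Nat.le_mul_of_pos_left _ h5)
  refine ⟨(h : ZMod (M * p ^ (n + 1))).val, ?_, ZMod.val_lt _, hcop, ?_⟩
  · have h0 : (h : ZMod (M * p ^ (n + 1))).val ≠ 0 := by
      intro h0
      rw [h0, Nat.coprime_zero_left] at hcop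
      omega
    have h1' : (h : ZMod (M * p ^ (n + 1))).val ≠ 1 := by
      intro h1'
      apply hne
      have : h = 1 := by
        apply Units.ext
        rw [Units.val_one, ← ZMod.natCast_zmod_val (h : ZMod (M * p ^ (n + 1))), h1', Nat.cast_one]
      rw [this, map_one]
    omega
  · intro h0
    have hst := stick_formula haN φ h hmod hne
    rw [h0, mul_zero] at hst
    exact mul_ne_zero hc hB hst.symm

end H78M
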