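import Pool.Agent.H78.MG.Cd
import Pool.Agent.H78.MG.Sf
import Pool.Agent.H78.MG.Ra
import Pool.Agent.H55.T3.Df2

/-!
Row MgEa (about 150 lines): no new classes modulo `T`. Use only the STATEMENTS of Cd, Sf, Ra. ADAPT `H55T3.principal_I` (`Mn_prod`, `Mn_sum` included) in `Pool/Agent/H55/T3/Mn.lean` (there `T = ⊥`, `l = 3`, `M = 3`).

PROOF. Suppose `icl I ∉ T`. `exists_phi N`: `Ω`, `φ` with (R): `∏ g, icl (g • I)^θ g ∈ T → ∑ θ g φ(κ g) = 0`.
(1) `φ(-1) = -1`: `J = κ.symm (-1)`, `θ = Pi.single J 1 + Pi.single 1 1`: the product is `icl (J • I) * icl I`, in `T` by `hJ`.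
(2) `h2` of `exists_St_ne`: `t` with the two conditions, `g = κ.symm t` (`IsTau`), `θ = Pi.single g 1 + Pi.single 1 (l - 1)`: the product is `icl (g • I) * icl I ^ (l - 1) = (icl (g • I) * (icl I)⁻¹) * icl I ^ l ∈ T`, so `φ(t) + (l - 1) = 0`, `φ t = 1`
    (char `l`).
(3) `h3`: `θ = indicator of InH`: the product is in `T`, so `∑_{g ∈ H} φ(κ g) = 0`; if `φ h = 1` for all `h` in the kernel, the sum is `|H| = p^(n-m)`, not zero in `Ω` (`card_InH`, `H46TS.cast_ne`).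
(4) `exists_St_ne` gives `c` with `St N c φ ≠ 0`; `hSt c .. I : (∏ g, (g⁻¹ • I)^(c * tt N C g / N)).IsPrincipal`; reindex `g → g⁻¹`, `icl` of a principal ideal is `1 ∈ T` (`H55T3.Mc_prod`, `isPrincipal_iff_icl`), so `∑_g (c * tt N C g⁻¹ / N) φ(κ g) = 0`; reindex again: this is
    `St N c φ = 0` (`tt N C g = (κ g : ZMod N).val` by definition).
-/

set_option autoImplicit false
open scoped Classical Pointwise

open IsDedekindDomain NumberField Finset H55T3

namespace H78M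

theorem MgEa_prod {G M : Type*} [Fintype G] [CommMonoid M] (f : G → M) (a : G) (k : ℕ) :
    ∏ g, f g ^ (Pi.single a k : G → ℕ) g = f a ^ k := by
  rw [Finset.prod_eq_single a]
  · rw [Pi.single_eq_same]
  · intro b _ hb
    rw [Pi.single_eq_of_ne hb, pow_zero]
  · intro h
    exact absurd (Finset.mem_univ a) h

theorem MgEa_sum {G M : Type*} [Fintype G] [CommSemiring M] (f : G → M) (a : G) (k : ℕ) :
    ∑ g, (((Pi.single a k : G → ℕ) g : ℕ) : M) * f g = k * f a := by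
  rw [Finset.sum_eq_single a]
  · rw [Pi.single_eq_same]
  · intro b _ hb
    rw [Pi.single_eq_of_ne hb, Nat.cast_zero, zero_mul]
  · intro h
    exact absurd (Finset.mem_univ a) h

theorem MgEa_prod2 {G M : Type*} [Fintype G] [CommMonoid M] (f : G → M) (a b : G) (k j : ℕ) :
    ∏ g, f g ^ (Pi.single a k + Pi.single b j : G → ℕ) g = f a ^ k * f b ^ j := by
  simp only [Pi.add_apply, pow_add, Finset.prod_mul_distrib]
  rw [MgEa_prod, MgEa_prod]

theorem MgEa_sum2 {G M : Type*} [Fintype G] [CommSemiring M] (f : G → M) (a b : G) (k j : ℕ) :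
    ∑ g, (((Pi.single a k + Pi.single b j : G → ℕ) g : ℕ) : M) * f g = k * f a + j * f b := by
  simp only [Pi.add_apply, Nat.cast_add, add_mul, Finset.sum_add_distrib]
  rw [MgEa_sum, MgEa_sum]

variable {l p M m n : ℕ} [Fact l.Prime] [Fact p.Prime] [NeZero M] {C : Type} [Field C] [NumberField C]
  [IsCyclotomicExtension {M * p ^ (n + 1)} ℚ C]

theorem mem_T {k0 s0 : ℕ} (hl2 : l ≠ 2) (hp2 : p ≠ 2) (hlp : l ≠ p) (hpM : p.Coprime M)
    (hs0 : ∀ (Ω : Type) [Field Ω] [CharP Ω l] (ψ : (ZMod M)ˣ →* Ωˣ) (t : (ZMod M)ˣ), (ψ t : Ω) ^ (l ^ s0) = ψ t)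
    (hS : H46TS.NV l p M s0 k0) (hm : k0 ≤ m + 1) (hmn : m ≤ n)
    (hSt : Stick (M * p ^ (n + 1)) C) {T : Subgroup (ClassGroup (𝓞 C))} (hT : Stab T) {I : Ideal (𝓞 C)}
    (hI0 : I ≠ ⊥) (hIl : icl I ^ l ∈ T)
    (hH : ∏ g ∈ univ.filter (fun g : C ≃ₐ[ℚ] C => InH p M m n hmn g), icl (g • I) ∈ T)
    (hJ : ∀ g : C ≃ₐ[ℚ] C, kp (M * p ^ (n + 1)) g = -1 → icl I * icl (g • I) ∈ T)
    (hτ : ∀ g : C ≃ₐ[ℚ] C, IsTau p M n g → icl (g • I) * (icl I)⁻¹ ∈ T) : icl I ∈ T := by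
  by_contra hnp
  have hl : l.Prime := Fact.out
  obtain ⟨Ω, iF, iC, iA, φ, R⟩ := exists_phi (l := l) (M * p ^ (n + 1)) hT hI0 hIl hnp
  have hlΩ : (l : Ω) = 0 := CharP.cast_eq_zero Ω l
  have hk1 : kp (M * p ^ (n + 1)) (1 : C ≃ₐ[ℚ] C) = 1 := map_one _
  have h1 : φ (-1) = -1 := by
    obtain ⟨J, hJJ⟩ : ∃ J, kp (M * p ^ (n + 1)) (C := C) J = -1 :=
      (IsCyclotomicExtension.Rat.galEquivZMod (M * p ^ (n + 1)) C).surjective (-1)
    have h := R (Pi.single J 1 + Pi.single 1 1) (by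
      rw [MgEa_prod2 (fun g : C ≃ₐ[ℚ] C => icl (g • I)), pow_one, pow_one, one_smul, mul_comm]
      exact hJ J hJJ)
    rw [MgEa_sum2 (fun g => (φ (kp (M * p ^ (n + 1)) (C := C) g) : Ω)), hJJ, hk1, map_one,
      Nat.cast_one, one_mul, one_mul, Units.val_one] at h
    apply Units.ext
    rw [Units.val_neg, Units.val_one]
    exact eq_neg_of_add_eq_zero_left h
  have h2 : ∀ t, ZMod.unitsMap (dvd_mul_right M (p ^ (n + 1))) t = 1 →
      ZMod.unitsMap (dvd_mul_left (p ^ (n + 1)) M) t = -1 → φ t = 1 := by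
    intro t ht1 ht2
    obtain ⟨g, rfl⟩ := (IsCyclotomicExtension.Rat.galEquivZMod (M * p ^ (n + 1)) C).surjective t
    have hg := hτ g ⟨ht1, ht2⟩
    have h := R (Pi.single g 1 + Pi.single 1 (l - 1)) (by
      rw [MgEa_prod2 (fun g : C ≃ₐ[ℚ] C => icl (g • I)), pow_one, one_smul]
      have h3 : icl (g • I) * icl I ^ (l - 1) = icl (g • I) * (icl I)⁻¹ * icl I ^ l := by
        have h4 : icl I ^ l = icl I * icl I ^ (l - 1) := by
          rw [← pow_succ', Nat.sub_add_cancel hl.one_le]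
        rw [h4, mul_assoc, inv_mul_cancel_left]
      rw [h3]
      exact T.mul_mem hg hIl)
    rw [MgEa_sum2 (fun g => (φ (kp (M * p ^ (n + 1)) (C := C) g) : Ω)), hk1, map_one,
      Nat.cast_one, one_mul, Units.val_one, mul_one, Nat.cast_sub hl.one_le, hlΩ, zero_sub,
      Nat.cast_one] at h
    apply Units.ext
    rw [Units.val_one]
    exact (add_neg_eq_zero.1 h)
  have h3 : ∃ h, ZMod.unitsMap (Nat.mul_dvd_mul_left M (pow_dvd_pow p (Nat.succ_le_succ hmn))) h = 1 ∧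
      φ h ≠ 1 := by
    by_contra hcon
    push Not at hcon
    have h := R (fun g => if InH p M m n hmn g then 1 else 0) (by
      have h4 : ∏ g : C ≃ₐ[ℚ] C, icl (g • I) ^ (if InH p M m n hmn g then 1 else 0) =
          ∏ g ∈ univ.filter (fun g : C ≃ₐ[ℚ] C => InH p M m n hmn g), icl (g • I) := by
        rw [Finset.prod_filter]
        apply Finset.prod_congr rfl
        intro g _
        split_ifs
        · rw [pow_one]
        · rw [pow_zero]
      rw [h4]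
      exact hH)
    have h' : ((univ.filter (fun g : C ≃ₐ[ℚ] C => InH p M m n hmn g)).card : Ω) = 0 := by
      rw [← h, Finset.card_filter, Nat.cast_sum]
      apply Finset.sum_congr rfl
      intro g _
      by_cases hg : InH p M m n hmn g
      · rw [if_pos hg, Nat.cast_one, one_mul, hcon _ hg, Units.val_one]
      · rw [if_neg hg, Nat.cast_zero, zero_mul]
    rw [card_InH hpM hmn] at h'
    exact H46TS.cast_ne hlp (n - m) Ω h'
  obtain ⟨c, hc1, hcN, hcop, hne⟩ := exists_St_ne hl2 hp2 hlp hpM hs0 hS hm hmn φ h1 h2 h3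
  apply hne
  have hpr := hSt c hc1 hcN hcop I hI0
  have hpr2 : (∏ g : C ≃ₐ[ℚ] C,
      (g • I) ^ (c * tt (M * p ^ (n + 1)) C g⁻¹ / (M * p ^ (n + 1)))).IsPrincipal := by
    rw [← Fintype.prod_equiv (Equiv.inv (C ≃ₐ[ℚ] C))
      (fun g => (g⁻¹ • I) ^ (c * tt (M * p ^ (n + 1)) C g / (M * p ^ (n + 1))))]
    · exact hpr
    · intro g
      rw [Equiv.inv_apply, inv_inv]
  rw [isPrincipal_iff_icl _ _ (fun g _ => smul_ne_bot g hI0)] at hpr2
  have h := R (fun g => c * tt (M * p ^ (n + 1)) C g⁻¹ / (M * p ^ (n + 1))) (by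
    rw [hpr2]
    exact T.one_mem)
  rw [← h]
  unfold St
  symm
  apply Fintype.sum_equiv ((Equiv.inv (C ≃ₐ[ℚ] C)).trans
    (IsCyclotomicExtension.Rat.galEquivZMod (M * p ^ (n + 1)) C).toEquiv)
  intro g
  simp only [Equiv.trans_apply, Equiv.inv_apply, MulEquiv.toEquiv_eq_coe, EquivLike.coe_coe]
  rw [map_inv, map_inv, inv_inv, mul_comm]
  rfl

end H78M
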