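import Pool.Agent.H78.MG.Ra

/-!
Row MgRb (about 110 lines): the unit part. Use only the STATEMENTS of Ra. ADAPT `H55T3.conj_kap` (end of `Pool/Agent/H55/T3/Mr.lean`) and `Pool/Agent/H55/T3/Mu.lean`.

PROOF. `conj_kp`: as `H55T3.conj_kap`, any conductor `N`.
`unit_pow`: `J` with `kp J = -1` (`(galEquivZMod _ C).symm (-1)`), `u J(u) = s^l`. `ξ = u / J(u)` is an algebraic integer with `‖φ ξ‖ = 1` for all `φ : C →+* ℂ` (`conj_kp`), so a root of unity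
(`NumberField.Embeddings.pow_eq_one_of_norm_eq_one C ℂ`). `ξ = u^2 / s^l`, so `∏_{g ∈ H} g ξ = (∏ g u)^2 / (∏ g s)^l` is an `l`-th power, by `root_pow` `ξ = t^l`, `u^2 = (t s)^l`; and `u^l` is an `l`-th power, `2` and `l` coprime:
`pow_of_coprime`.
-/

set_option autoImplicit false
open scoped Classical Pointwise

open IsDedekindDomain NumberField Finset

namespace H78M

theorem conj_kp {N : ℕ} [NeZero N] {C : Type} [Field C] [NumberField C] [IsCyclotomicExtension {N} ℚ C]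
    (g : C ≃ₐ[ℚ] C) (hg : kp N g = -1) (φ : C →+* ℂ) (x : C) : φ (g x) = (starRingEnd ℂ) (φ x) := by
  obtain ⟨ζ, hζ⟩ : ∃ ζ : C, IsPrimitiveRoot ζ N :=
    ⟨_, IsCyclotomicExtension.zeta_spec N ℚ C⟩
  have hNpos : 0 < N := Nat.pos_of_ne_zero (NeZero.ne _)
  have h2 := IsCyclotomicExtension.Rat.galEquivZMod_apply_of_pow_eq N C g hζ.pow_eq_one
  have hg' : IsCyclotomicExtension.Rat.galEquivZMod N C g = -1 := hg
  have h3 : g ζ * ζ = 1 := by
    rw [h2, ← pow_succ, hζ.pow_eq_one_iff_dvd, ← ZMod.natCast_eq_zero_iff, hg']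
    push_cast
    rw [ZMod.natCast_val, ZMod.cast_id]
    simp
  have h4 : φ (g ζ) = (starRingEnd ℂ) (φ ζ) := by
    have h5 : φ (g ζ) * φ ζ = 1 := by rw [← map_mul, h3, map_one]
    have h6 : φ ζ ^ N = 1 := by rw [← map_pow, hζ.pow_eq_one, map_one]
    have h7 : ‖φ ζ‖ = 1 := Complex.norm_eq_one_of_pow_eq_one h6 hNpos.ne'
    rw [← Complex.inv_eq_conj h7]
    exact eq_inv_of_mul_eq_one_left h5
  have h8 : (φ.comp (g : C →+* C)).toRatAlgHom = ((starRingEnd ℂ).comp φ).toRatAlgHom := by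
    apply (hζ.powerBasis ℚ).algHom_ext
    rw [IsPrimitiveRoot.powerBasis_gen]
    simpa using h4
  have h9 := DFunLike.congr_fun h8 x
  simpa using h9

variable {l p M m n : ℕ} [Fact l.Prime] [Fact p.Prime] [NeZero M] {C : Type} [Field C] [NumberField C]
  [IsCyclotomicExtension {M * p ^ (n + 1)} ℚ C]

theorem unit_pow (hl2 : l ≠ 2) (hlp : l ≠ p) (hpM : p.Coprime M) (hmn : m ≤ n) {u : (𝓞 C)ˣ}
    (hJ : ∀ g : C ≃ₐ[ℚ] C, kp (M * p ^ (n + 1)) g = -1 →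
      ∃ s : C, ((u : 𝓞 C) : C) * g ((u : 𝓞 C) : C) = s ^ l)
    (hH : ∃ s : C, ∏ g ∈ univ.filter (fun g : C ≃ₐ[ℚ] C => InH p M m n hmn g), g ((u : 𝓞 C) : C) = s ^ l) :
    ∃ s : C, ((u : 𝓞 C) : C) = s ^ l := by
  have hlp' : l.Prime := Fact.out
  have hl0 : l ≠ 0 := hlp'.ne_zero
  obtain ⟨J, hkJ⟩ : ∃ J : C ≃ₐ[ℚ] C, kp (M * p ^ (n + 1)) J = -1 :=
    ⟨(IsCyclotomicExtension.Rat.galEquivZMod (M * p ^ (n + 1)) C).symm (-1),
      MulEquiv.apply_symm_apply _ _⟩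
  obtain ⟨x, hx⟩ : ∃ x : C, x = ((u : 𝓞 C) : C) := ⟨_, rfl⟩
  rw [← hx] at hH ⊢
  simp only [← hx] at hJ
  obtain ⟨y, hy⟩ : ∃ y : C, y = (((u⁻¹ : (𝓞 C)ˣ) : 𝓞 C) : C) := ⟨_, rfl⟩
  have hxy : x * y = 1 := by
    rw [hx, hy]
    have h1 : ((u : 𝓞 C) * ((u⁻¹ : (𝓞 C)ˣ) : 𝓞 C)) = 1 := u.mul_inv
    have h2 := congrArg (algebraMap (𝓞 C) C) h1
    rwa [map_mul, map_one] at h2
  have hx0 : x ≠ 0 := left_ne_zero_of_mul_eq_one hxy
  have hxint : IsIntegral ℤ x := by rw [hx]; exact RingOfIntegers.isIntegral_coe _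
  have hyint : IsIntegral ℤ y := by rw [hy]; exact RingOfIntegers.isIntegral_coe _
  obtain ⟨s, hs⟩ := hJ J hkJ
  have hJx0 : J x ≠ 0 := by rwa [Ne, map_eq_zero]
  -- the root of unity
  have hξ : IsOfFinOrder (x / J x) := by
    have e1 : x / J x = x * J y := by
      rw [div_eq_iff hJx0, mul_assoc, ← map_mul, mul_comm y x, hxy, map_one, mul_one]
    have hint : IsIntegral ℤ (x / J x) := by
      rw [e1]
      exact hxint.mul (map_isIntegral_int (J : C →+* C) hyint)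
    obtain ⟨N, hN, hN1⟩ := NumberField.Embeddings.pow_eq_one_of_norm_eq_one C ℂ hint (by
      intro φ
      have hφ : φ x ≠ 0 := by rwa [Ne, map_eq_zero]
      rw [map_div₀, norm_div, conj_kp J hkJ φ x, RCLike.norm_conj, div_self (norm_ne_zero_iff.mpr hφ)])
    exact isOfFinOrder_iff_pow_eq_one.mpr ⟨N, hN, hN1⟩
  have hs0 : s ≠ 0 := by
    rintro rfl
    rw [zero_pow hl0] at hs
    exact mul_ne_zero hx0 hJx0 hs
  have hξ2 : x / J x = x ^ 2 / s ^ l := by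
    rw [← hs]
    field_simp
  obtain ⟨s', hs'⟩ := hH
  obtain ⟨H, hHd⟩ : ∃ H : Finset (C ≃ₐ[ℚ] C), H = univ.filter (fun g => InH p M m n hmn g) := ⟨_, rfl⟩
  have hprod : ∏ g ∈ H, g (x / J x) = (s' ^ 2 / ∏ g ∈ H, g s) ^ l := by
    rw [← hHd] at hs'
    have h1 : ∀ g ∈ H, g (x / J x) = (g x) ^ 2 / (g s) ^ l := by
      intro g _
      rw [hξ2, map_div₀, map_pow, map_pow]
    rw [Finset.prod_congr rfl h1, Finset.prod_div_distrib, Finset.prod_pow, Finset.prod_pow, hs', div_pow]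
    congr 1
    ring
  rw [hHd] at hprod
  obtain ⟨t, ht⟩ := root_pow hl2 hlp hpM hmn hξ ⟨_, hprod⟩
  have hcop : (2 : ℕ).Coprime l := (Nat.coprime_primes Nat.prime_two hlp').2 (Ne.symm hl2)
  refine pow_of_coprime hcop hx0 ⟨t * s, ?_⟩ ⟨x, rfl⟩
  have h1 : x ^ 2 = (x / J x) * (x * J x) := by
    field_simp
  rw [h1, ht, hs, mul_pow]

end H78M
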