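import Pool.Agent.H78.MG.Ea
import Pool.Agent.H78.MG.Rb
import Pool.Agent.H78.MG.Cb
import Pool.Agent.H78.MG.Cc

/-!
Row MgEb (about 170 lines): the main theorems of block M. Use only the STATEMENTS of Ea, Rb, Cb, Cc. ADAPT `H55T3.noNewC` in `Pool/Agent/H55/T3/Mn.lean`.

PROOF. `noNewT`: every class is `icl I` with `I ≠ ⊥` (`ClassGroup.mk0_surjective`, `H55T3.Mc_icl`), `mem_T`.
`noNewE`: `exists_pow_ideal`: `e = y b^l`, `I^l = span {y}`. The hypotheses on `e` give those on `y` (divide by `l`-th powers, as in `noNewC`). `T = ⊥` is stable (`icl I = 1` iff `I` principal: `isPrincipal_iff_icl` with one factor; `smul_isPrincipal`).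
`mem_T` for `T = ⊥`: `icl I ^ l = 1` (`I^l` principal), and by `isPrincipal_of_pow` (with `θ` = indicator of `H`, resp. `Pi.single 1 1 + Pi.single g 1`, resp. `Pi.single g 1 + Pi.single 1 (l - 1)`: `∏ g (y)^θ g = g(y) y^(l-1) = y^l s^l`)
and `isPrincipal_iff_icl` the classes `∏_{g ∈ H} icl (g • I)`, `icl I * icl (g • I)`, `icl (g • I) * icl I ^ (l-1) = icl (g • I) * (icl I)⁻¹` are `1`. So `I = span {β}`, `β ≠ 0`, `span {y} = span {β^l}`, `y = u β^l` with a unit `u`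
(`Ideal.span_singleton_eq_span_singleton`, `Associated`). The hypotheses on `y` give those on `u`, `unit_pow`: `u = s^l`, `e = (s β b)^l`.
-/

set_option autoImplicit false
open scoped Classical Pointwise

open IsDedekindDomain NumberField Finset H55T3

namespace H78M

theorem Eb_prod {G A : Type*} [Fintype G] [CommMonoid A] (f : G → A) (a : G) (k : ℕ) :
    ∏ g, f g ^ (Pi.single a k : G → ℕ) g = f a ^ k := by
  rw [Finset.prod_eq_single a]
  · rw [Pi.single_eq_same]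
  · intro b _ hb
    rw [Pi.single_eq_of_ne hb, pow_zero]
  · intro h
    exact absurd (Finset.mem_univ a) h

theorem Eb_icl {C : Type} [Field C] [NumberField C] {I : Ideal (𝓞 C)} (hI : I ≠ ⊥) :
    icl I = 1 ↔ I.IsPrincipal := by
  rw [Mc_icl hI, ClassGroup.mk0_eq_one_iff]

theorem Eb_stab {C : Type} [Field C] [NumberField C] : Stab (⊥ : Subgroup (ClassGroup (𝓞 C))) := by
  intro g I hI h
  rw [Subgroup.mem_bot] at h ⊢
  rw [Eb_icl hI] at h
  rw [Eb_icl (smul_ne_bot g hI)]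
  exact smul_isPrincipal g h

/-- relations between the classes of the conjugates of `I` -/
theorem Eb_rel {C : Type} [Field C] [NumberField C] [IsGalois ℚ C] {l : ℕ} (hl : l ≠ 0) {y : 𝓞 C}
    {I : Ideal (𝓞 C)} (hI0 : I ≠ ⊥) (hI : I ^ l = Ideal.span {y}) (θ : (C ≃ₐ[ℚ] C) → ℕ) {s : C}
    (hs : ∏ g, (g (y : C)) ^ θ g = s ^ l) : ∏ g : C ≃ₐ[ℚ] C, icl (g • I) ^ θ g = 1 := by
  have h1 := isPrincipal_of_pow hl hI θ hs
  rw [isPrincipal_iff_icl Finset.univ (fun g : C ≃ₐ[ℚ] C => g • I) (fun g _ => smul_ne_bot g hI0)] at h1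
  exact h1

theorem Eb_two {C : Type} [Field C] [NumberField C] [IsGalois ℚ C] {l : ℕ} (hl : l ≠ 0) {y : 𝓞 C}
    {I : Ideal (𝓞 C)} (hI0 : I ≠ ⊥) (hI : I ^ l = Ideal.span {y}) (g : C ≃ₐ[ℚ] C) (k : ℕ) {s : C}
    (hs : g (y : C) * (y : C) ^ k = s ^ l) : icl (g • I) * icl I ^ k = 1 := by
  have h1 := Eb_rel hl hI0 hI (Pi.single g 1 + Pi.single 1 k) (s := s) (by
    simp only [Pi.add_apply, pow_add, Finset.prod_mul_distrib]
    rw [Eb_prod (fun g : C ≃ₐ[ℚ] C => g (y : C)), Eb_prod (fun g : C ≃ₐ[ℚ] C => g (y : C)), pow_one,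
      AlgEquiv.one_apply, hs])
  simp only [Pi.add_apply, pow_add, Finset.prod_mul_distrib] at h1
  rw [Eb_prod (fun g : C ≃ₐ[ℚ] C => icl (g • I)), Eb_prod (fun g : C ≃ₐ[ℚ] C => icl (g • I)), pow_one,
    one_smul] at h1
  exact h1

variable {l p M m n : ℕ} [Fact l.Prime] [Fact p.Prime] [NeZero M] {C : Type} [Field C] [NumberField C]
  [IsCyclotomicExtension {M * p ^ (n + 1)} ℚ C]

theorem noNewT {k0 s0 : ℕ} (hl2 : l ≠ 2) (hp2 : p ≠ 2) (hlp : l ≠ p) (hpM : p.Coprime M)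
    (hs0 : ∀ (Ω : Type) [Field Ω] [CharP Ω l] (ψ : (ZMod M)ˣ →* Ωˣ) (t : (ZMod M)ˣ), (ψ t : Ω) ^ (l ^ s0) = ψ t)
    (hS : H46TS.NV l p M s0 k0) (hm : k0 ≤ m + 1) (hmn : m ≤ n)
    (hSt : Stick (M * p ^ (n + 1)) C) : NoNewT l p M m n hmn C := by
  intro T hT h1 h2 h3 h4
  rw [eq_top_iff]
  rintro c -
  obtain ⟨⟨I, hI⟩, rfl⟩ := ClassGroup.mk0_surjective c
  have hI0 : I ≠ ⊥ := nonZeroDivisors.ne_zero hI
  have h5 : icl I ∈ T := mem_T hl2 hp2 hlp hpM hs0 hS hm hmn hSt hT hI0 (h1 I hI0) (h2 I hI0)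
    (fun g hg => h3 g hg I hI0) (fun g hg => h4 g hg I hI0)
  rw [Mc_icl hI0] at h5
  exact h5

theorem noNewE {k0 s0 : ℕ} (hl2 : l ≠ 2) (hp2 : p ≠ 2) (hlp : l ≠ p) (hpM : p.Coprime M)
    (hs0 : ∀ (Ω : Type) [Field Ω] [CharP Ω l] (ψ : (ZMod M)ˣ →* Ωˣ) (t : (ZMod M)ˣ), (ψ t : Ω) ^ (l ^ s0) = ψ t)
    (hS : H46TS.NV l p M s0 k0) (hm : k0 ≤ m + 1) (hmn : m ≤ n)
    (hSt : Stick (M * p ^ (n + 1)) C) : NoNewE l p M m n hmn C := by
  have : IsGalois ℚ C := IsCyclotomicExtension.isGalois {M * p ^ (n + 1)} ℚ C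
  have hl0 : l ≠ 0 := (Fact.out : l.Prime).ne_zero
  intro e he hv hH hJ hτ
  obtain ⟨y, b, I, hy, hb, hI0, hI, rfl⟩ := exists_pow_ideal (l := l) he hv
  have hyC : (y : C) ≠ 0 := RingOfIntegers.coe_ne_zero_iff.mpr hy
  have hg0 : ∀ (g : C ≃ₐ[ℚ] C) (x : C), x ≠ 0 → g x ≠ 0 := by
    intro g x hx h0
    exact hx ((map_eq_zero g).1 h0)
  have hH' : ∃ s : C, ∏ g ∈ univ.filter (fun g : C ≃ₐ[ℚ] C => InH p M m n hmn g), g (y : C) = s ^ l := by
    obtain ⟨s, hs⟩ := hH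
    have hb' : ∏ g ∈ univ.filter (fun g : C ≃ₐ[ℚ] C => InH p M m n hmn g), g b ≠ 0 :=
      Finset.prod_ne_zero_iff.2 (fun g _ => hg0 g b hb)
    refine ⟨s / ∏ g ∈ univ.filter (fun g : C ≃ₐ[ℚ] C => InH p M m n hmn g), g b, ?_⟩
    rw [div_pow, ← hs, eq_div_iff (pow_ne_zero _ hb')]
    simp only [map_mul, map_pow, Finset.prod_mul_distrib, Finset.prod_pow]
  have hJ' : ∀ g : C ≃ₐ[ℚ] C, kp (M * p ^ (n + 1)) g = -1 → ∃ s : C, (y : C) * g (y : C) = s ^ l := by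
    intro g h1
    obtain ⟨s, hs⟩ := hJ g h1
    have hgb := hg0 g b hb
    refine ⟨s / (b * g b), ?_⟩
    rw [map_mul, map_pow] at hs
    rw [div_pow, ← hs, eq_div_iff (pow_ne_zero _ (mul_ne_zero hb hgb)), mul_pow]
    ring
  have hτ' : ∀ g : C ≃ₐ[ℚ] C, IsTau p M n g → ∃ s : C, g (y : C) = (y : C) * s ^ l := by
    intro g h1
    obtain ⟨s, hs⟩ := hτ g h1
    have hgb := hg0 g b hb
    refine ⟨b * s / g b, ?_⟩
    rw [map_mul, map_pow] at hs
    rw [div_pow, ← mul_div_assoc, eq_div_iff (pow_ne_zero _ hgb), hs, mul_pow]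
    ring
  have hIl : icl I ^ l = 1 := by
    rw [← Mc_pow hI0, Eb_icl (pow_ne_zero l hI0), hI]
    exact ⟨⟨y, rfl⟩⟩
  have hprin : I.IsPrincipal := by
    rw [← Eb_icl hI0, ← Subgroup.mem_bot]
    refine mem_T hl2 hp2 hlp hpM hs0 hS hm hmn hSt Eb_stab hI0 ?_ ?_ ?_ ?_
    · rw [Subgroup.mem_bot]
      exact hIl
    · rw [Subgroup.mem_bot]
      obtain ⟨s, hs⟩ := hH'
      have h1 := Eb_rel hl0 hI0 hI (fun g => if InH p M m n hmn g then 1 else 0) (s := s) (by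
        rw [← hs, Finset.prod_filter]
        apply Finset.prod_congr rfl
        intro g _
        split_ifs
        · rw [pow_one]
        · rw [pow_zero])
      rw [← h1, Finset.prod_filter]
      apply Finset.prod_congr rfl
      intro g _
      split_ifs
      · rw [pow_one]
      · rw [pow_zero]
    · intro g hg
      rw [Subgroup.mem_bot]
      obtain ⟨s, hs⟩ := hJ' g hg
      have h1 := Eb_two hl0 hI0 hI g 1 (s := s) (by rw [pow_one, mul_comm, hs])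
      rw [pow_one] at h1
      rw [mul_comm, h1]
    · intro g hg
      rw [Subgroup.mem_bot]
      obtain ⟨s, hs⟩ := hτ' g hg
      have hl1 : l - 1 + 1 = l := Nat.succ_pred_eq_of_ne_zero hl0
      have e1 : (y : C) * (y : C) ^ (l - 1) = (y : C) ^ l := by
        rw [← pow_succ', hl1]
      have h1 := Eb_two hl0 hI0 hI g (l - 1) (s := (y : C) * s) (by
        rw [hs, mul_pow, ← e1, mul_right_comm])
      have h2 : (icl I)⁻¹ = icl I ^ (l - 1) := by
        rw [inv_eq_iff_mul_eq_one, ← pow_succ', hl1, hIl]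
      rw [h2, h1]
  obtain ⟨β, hβ⟩ := hprin.principal
  have hβ' : I = Ideal.span {β} := hβ
  have hβ0 : β ≠ 0 := by
    rintro rfl
    apply hI0
    rw [hβ']
    exact Ideal.span_singleton_eq_bot.2 rfl
  have hβC : (β : C) ≠ 0 := RingOfIntegers.coe_ne_zero_iff.mpr hβ0
  rw [hβ', Ideal.span_singleton_pow, Ideal.span_singleton_eq_span_singleton] at hI
  obtain ⟨u, hu⟩ := hI
  have huC : (y : C) = (β : C) ^ l * ((u : 𝓞 C) : C) := by
    have := congrArg (algebraMap (𝓞 C) C) hu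
    rw [map_mul, map_pow] at this
    exact this.symm
  obtain ⟨s, hs⟩ := unit_pow hl2 hlp hpM hmn (u := u) (C := C) (by
    intro g h1
    obtain ⟨s, hs⟩ := hJ' g h1
    have hgb := hg0 g _ hβC
    refine ⟨s / (β * g β), ?_⟩
    rw [huC, map_mul, map_pow] at hs
    rw [div_pow, ← hs, eq_div_iff (pow_ne_zero _ (mul_ne_zero hβC hgb)), mul_pow]
    ring) (by
    obtain ⟨s, hs⟩ := hH'
    have hb' : ∏ g ∈ univ.filter (fun g : C ≃ₐ[ℚ] C => InH p M m n hmn g), g (β : C) ≠ 0 :=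
      Finset.prod_ne_zero_iff.2 (fun g _ => hg0 g _ hβC)
    refine ⟨s / ∏ g ∈ univ.filter (fun g : C ≃ₐ[ℚ] C => InH p M m n hmn g), g (β : C), ?_⟩
    rw [div_pow, ← hs, eq_div_iff (pow_ne_zero _ hb'), huC]
    simp only [map_mul, map_pow, Finset.prod_mul_distrib, Finset.prod_pow]
    ring)
  refine ⟨s * β * b, ?_⟩
  rw [huC, hs, mul_pow, mul_pow]
  ring

end H78M
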