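import Pool.Agent.H78.MG.Ra

/-!
Row MgPa (about 190 lines): from `F = ℚ(ζ_N)` down to a subfield `B`. ADAPT `Pool/Agent/H68/TK/Bmb.lean` (there `l = 3`, `M = 3`, `B = C`, `F = C'`, `P h` is `h s = s`; our `res`, `cov` are its `restr_iota`, `lift_iota`). Use the STATEMENTS of Ra.

PROOF. `ι = algebraMap B F`. `H = {g : InH g}` is a subgroup. By `res` every `g ∈ H` has `r g : B ≃ₐ[K] B`, `P (r g)`, `g (ι x) = ι (r g x)`, unique as `ι` is injective, so `r` is multiplicative; by `cov` the image of `r` is exactly `{h : P h}`.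
`prod_down`: `∏_{g ∈ H} g (ι e) = ∏_{h, P h} (ι (h e))^c` with `c` the number of elements of the fibres (all equal: multiplication by a lift), `= (ι y)^(l c)`.
`card_P`: `|H| = c * |{h : P h}|`, `|H| = p^(n-m)` (`card_InH`), so `|{P h}|` divides a power of `p` and is prime to `l ≠ p`.
`mu_fix`: `z ^ l = 1` in `F`, `g ∈ H`: `g z = z`: clear if `z = 1`; otherwise `z` has order `l`, `l ∣ 2 N` (`IsPrimitiveRoot.dvd_of_isCyclotomicExtension`), so `l ∣ M` (`l ≠ 2, p`), `z^N = 1`, `g z = z^(κ g).val`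
(`IsCyclotomicExtension.Rat.galEquivZMod_apply_of_pow_eq`) and `(κ g).val ≡ 1 mod M`, so mod `l`.
`down`: `ι e = y^l`, `y ≠ 0`. Let `P h`, `g ∈ H` a lift. For `δ ∈ Gal(F/B)`: `(δ y / y)^l = 1`; `Gal(F/ℚ)` is commutative (it is isomorphic to `(ZMod N)ˣ`), so `δ (g y) = g (δ y) = g (δ y / y) g y = (δ y / y) g y` (`mu_fix`), so `g y / y` is fixed by
`Gal(F/B)` and `F/B` is Galois (`F/ℚ` is): `g y / y = ι (c_h)`, `h e = e c_h^l`. Multiply over `P h`: `y1^l = ∏ h e = e^|P| (∏ c_h)^l`; `e^|P|` and `e^l` are `l`-th powers: `pow_of_coprime`.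
`pair_E`: valuations: `B → F`, primes `W` over `w`: `W.valuation (ι e)` is a power of `w.valuation e` (`HeightOneSpectrum.valuation_liesOver`, see `base_minus` in `Pool/Agent/H68/TK/Bm.lean`). Then `HE` for `ι e`, `prod_down`, `down`.
-/

set_option autoImplicit false
open scoped Classical Pointwise

open IsDedekindDomain NumberField Finset

namespace H78M

/-- the automorphisms `h` of `B` over `K` with `P h` are exactly the restrictions of the elements of `H` -/
structure PairD (p M m n : ℕ) [Fact p.Prime] [NeZero M] (hmn : m ≤ n) (K B F : Type) [Field K] [Field B] [Field F]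
    [NumberField F] [Algebra K B] [Algebra B F] [IsCyclotomicExtension {M * p ^ (n + 1)} ℚ F]
    (P : (B ≃ₐ[K] B) → Prop) : Prop where
  res : ∀ g : F ≃ₐ[ℚ] F, InH p M m n hmn g → ∃ h : B ≃ₐ[K] B, P h ∧ ∀ x, g (algebraMap B F x) = algebraMap B F (h x)
  cov : ∀ h : B ≃ₐ[K] B, P h → ∃ g : F ≃ₐ[ℚ] F, InH p M m n hmn g ∧ ∀ x, g (algebraMap B F x) = algebraMap B F (h x)

variable {l p M m n : ℕ} [Fact l.Prime] [Fact p.Prime] [NeZero M] {hmn : m ≤ n} {K B F : Type} [Field K] [NumberField K]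
  [Field B] [NumberField B] [Field F] [NumberField F] [Algebra K B] [Algebra B F]
  [IsCyclotomicExtension {M * p ^ (n + 1)} ℚ F] {P : (B ≃ₐ[K] B) → Prop}

theorem Pa_mul {g h : F ≃ₐ[ℚ] F} (hg : InH p M m n hmn g) (hh : InH p M m n hmn h) :
    InH p M m n hmn (g * h) := by
  unfold InH at hg hh ⊢
  have hk : kp (M * p ^ (n + 1)) (g * h) = kp (M * p ^ (n + 1)) g * kp (M * p ^ (n + 1)) h :=
    map_mul _ _ _
  rw [hk, map_mul, hg, hh, one_mul]

theorem Pa_inv {g : F ≃ₐ[ℚ] F} (hg : InH p M m n hmn g) : InH p M m n hmn g⁻¹ := by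
  unfold InH at hg ⊢
  have hk : kp (M * p ^ (n + 1)) g⁻¹ = (kp (M * p ^ (n + 1)) g)⁻¹ := map_inv _ _
  rw [hk, map_inv, hg, inv_one]

theorem Pa_comm (p M n : ℕ) [Fact p.Prime] [NeZero M] {F : Type} [Field F] [NumberField F]
    [IsCyclotomicExtension {M * p ^ (n + 1)} ℚ F] (g h : F ≃ₐ[ℚ] F) : g * h = h * g := by
  apply (IsCyclotomicExtension.Rat.galEquivZMod (M * p ^ (n + 1)) F).injective
  rw [map_mul, map_mul]
  exact mul_comm _ _

theorem mu_fix (hl2 : l ≠ 2) (hlp : l ≠ p) {g : F ≃ₐ[ℚ] F} (hg : InH p M m n hmn g) {z : F} (hz : z ^ l = 1) :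
    g z = z := by
  have hpp : p.Prime := Fact.out
  have hlpr : l.Prime := Fact.out
  by_cases hz1 : z = 1
  · rw [hz1, map_one]
  have hord : orderOf z = l := orderOf_eq_prime hz hz1
  have hroot : IsPrimitiveRoot z l := hord ▸ IsPrimitiveRoot.orderOf z
  have hdvd : l ∣ 2 * (M * p ^ (n + 1)) :=
    hroot.dvd_of_isCyclotomicExtension (M * p ^ (n + 1)) hlpr.ne_zero
  have hbM : l ∣ M := by
    have h3 : l.Coprime 2 := (Nat.coprime_primes hlpr Nat.prime_two).2 hl2
    have h4 : l.Coprime (p ^ (n + 1)) := Nat.Coprime.pow_right _ ((Nat.coprime_primes hlpr hpp).2 hlp)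
    exact h4.dvd_of_dvd_mul_right (h3.dvd_of_dvd_mul_left hdvd)
  have h2 : z ^ (M * p ^ (n + 1)) = 1 := by
    obtain ⟨c, hc⟩ := hbM.mul_right (p ^ (n + 1))
    rw [hc, pow_mul, hz, one_pow]
  rw [IsCyclotomicExtension.Rat.galEquivZMod_apply_of_pow_eq (M * p ^ (n + 1)) F g h2]
  unfold InH at hg
  obtain ⟨a, ha⟩ : ∃ a : ℕ, a = ((IsCyclotomicExtension.Rat.galEquivZMod (M * p ^ (n + 1)) F g :
    (ZMod (M * p ^ (n + 1)))ˣ) : ZMod (M * p ^ (n + 1))).val := ⟨_, rfl⟩
  rw [← ha]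
  have h3 : ((a : ℕ) : ZMod (M * p ^ (m + 1))) = 1 := by
    have h4 := congrArg (fun u : (ZMod (M * p ^ (m + 1)))ˣ => (u : ZMod (M * p ^ (m + 1)))) hg
    simp only [ZMod.unitsMap_def, Units.coe_map, Units.val_one] at h4
    have h5 : ((kp (M * p ^ (n + 1)) g : (ZMod (M * p ^ (n + 1)))ˣ) : ZMod (M * p ^ (n + 1))) =
        ((a : ℕ) : ZMod (M * p ^ (n + 1))) := by
      rw [ha, ZMod.natCast_val, ZMod.cast_id]
    rw [h5] at h4
    simpa using h4
  have h6 : a ≡ 1 [MOD M * p ^ (m + 1)] := by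
    rw [← ZMod.natCast_eq_natCast_iff]
    simpa using h3
  have h7 : a ≡ 1 [MOD l] := (h6.of_mul_right _).of_dvd hbM
  have h10 : z ^ a = z ^ 1 := by
    rw [← pow_mod_orderOf z a, ← pow_mod_orderOf z 1, hord]
    exact congrArg (fun k => z ^ k) h7
  rw [h10, pow_one]

/-- The restriction. -/
theorem Pa_r (X : PairD p M m n hmn K B F P) : ∃ r : (F ≃ₐ[ℚ] F) → (B ≃ₐ[K] B),
    (∀ g, InH p M m n hmn g → P (r g) ∧ ∀ x, g (algebraMap B F x) = algebraMap B F (r g x)) ∧
    ∃ c : ℕ, ∀ h, P h → ((univ.filter (fun g : F ≃ₐ[ℚ] F => InH p M m n hmn g)).filter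
      (fun g => r g = h)).card = c := by
  have hR := X.res
  let r : (F ≃ₐ[ℚ] F) → (B ≃ₐ[K] B) := fun g =>
    if h : InH p M m n hmn g then (hR g h).choose else 1
  have hr : ∀ g, InH p M m n hmn g → P (r g) ∧
      ∀ x, g (algebraMap B F x) = algebraMap B F (r g x) := by
    intro g hg
    have h1 : r g = (hR g hg).choose := dif_pos hg
    rw [h1]
    exact (hR g hg).choose_spec
  have hinj : Function.Injective (algebraMap B F) := (algebraMap B F).injective
  have huniq : ∀ (g : F ≃ₐ[ℚ] F) (h : B ≃ₐ[K] B), InH p M m n hmn g →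
      (∀ x, g (algebraMap B F x) = algebraMap B F (h x)) → r g = h := by
    intro g h hg hx
    refine AlgEquiv.ext fun x => ?_
    apply hinj
    rw [← (hr g hg).2 x, hx x]
  refine ⟨r, hr, ((univ.filter (fun g : F ≃ₐ[ℚ] F => InH p M m n hmn g)).filter
    (fun g => r g = 1)).card, ?_⟩
  intro h hh
  obtain ⟨g₀, hg₀, hx₀⟩ := X.cov h hh
  symm
  refine Finset.card_bij (fun g _ => g₀ * g) ?_ ?_ ?_
  · intro g hg
    rw [Finset.mem_filter, Finset.mem_filter] at hg
    rw [Finset.mem_filter, Finset.mem_filter]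
    refine ⟨⟨Finset.mem_univ _, Pa_mul hg₀ hg.1.2⟩, ?_⟩
    apply huniq _ _ (Pa_mul hg₀ hg.1.2)
    intro x
    rw [AlgEquiv.mul_apply, (hr g hg.1.2).2 x, hg.2, hx₀]
    rfl
  · intro g _ g' _ hgg
    exact mul_left_cancel hgg
  · intro g hg
    rw [Finset.mem_filter, Finset.mem_filter] at hg
    refine ⟨g₀⁻¹ * g, ?_, by rw [mul_inv_cancel_left]⟩
    rw [Finset.mem_filter, Finset.mem_filter]
    have h1 : InH p M m n hmn (g₀⁻¹ * g) := Pa_mul (Pa_inv hg₀) hg.1.2
    refine ⟨⟨Finset.mem_univ _, h1⟩, ?_⟩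
    apply huniq _ _ h1
    intro x
    apply g₀.injective
    have h2 : g₀ ((g₀⁻¹ * g) (algebraMap B F x)) = (g₀ * (g₀⁻¹ * g)) (algebraMap B F x) := rfl
    rw [h2, mul_inv_cancel_left, (hr g hg.1.2).2 x, hg.2, hx₀]
    rfl

theorem prod_down (X : PairD p M m n hmn K B F P) {e : B} (hN : ∃ y, ∏ h ∈ univ.filter P, h e = y ^ l) :
    ∃ y, ∏ g ∈ univ.filter (fun g : F ≃ₐ[ℚ] F => InH p M m n hmn g), g (algebraMap B F e) = y ^ l := by
  obtain ⟨y, hy⟩ := hN
  obtain ⟨r, hr, c, hc⟩ := Pa_r X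
  refine ⟨algebraMap B F (y ^ c), ?_⟩
  have h1 : ∏ g ∈ univ.filter (fun g : F ≃ₐ[ℚ] F => InH p M m n hmn g), g (algebraMap B F e) =
      algebraMap B F (∏ g ∈ univ.filter (fun g : F ≃ₐ[ℚ] F => InH p M m n hmn g), (r g) e) := by
    rw [map_prod]
    exact Finset.prod_congr rfl fun g hg => (hr g (Finset.mem_filter.1 hg).2).2 e
  have h2 : ∏ g ∈ univ.filter (fun g : F ≃ₐ[ℚ] F => InH p M m n hmn g), (r g) e =
      ∏ h ∈ univ.filter P,
        ∏ g ∈ (univ.filter (fun g : F ≃ₐ[ℚ] F => InH p M m n hmn g)).filter (fun g => r g = h),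
          (r g) e := by
    symm
    apply Finset.prod_fiberwise_of_maps_to
    intro g hg
    rw [Finset.mem_filter]
    exact ⟨Finset.mem_univ _, (hr g (Finset.mem_filter.1 hg).2).1⟩
  have h3 : ∏ h ∈ univ.filter P,
        ∏ g ∈ (univ.filter (fun g : F ≃ₐ[ℚ] F => InH p M m n hmn g)).filter (fun g => r g = h),
          (r g) e =
      ∏ h ∈ univ.filter P, (h e) ^ c := by
    refine Finset.prod_congr rfl fun h hh => ?_
    rw [← hc h (Finset.mem_filter.1 hh).2, ← Finset.prod_const]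
    refine Finset.prod_congr rfl fun g hg => ?_
    rw [(Finset.mem_filter.1 hg).2]
  rw [h1, h2, h3, Finset.prod_pow, hy, ← map_pow, ← pow_mul, ← pow_mul, mul_comm]

theorem card_P (hlp : l ≠ p) (hpM : p.Coprime M) (X : PairD p M m n hmn K B F P) :
    Nat.Coprime (univ.filter P).card l := by
  have hpp : p.Prime := Fact.out
  have hlpr : l.Prime := Fact.out
  obtain ⟨r, hr, c, hc⟩ := Pa_r X
  have h1 : (univ.filter (fun g : F ≃ₐ[ℚ] F => InH p M m n hmn g)).card =
      ∑ h ∈ univ.filter P, ((univ.filter (fun g : F ≃ₐ[ℚ] F => InH p M m n hmn g)).filter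
        (fun g => r g = h)).card := by
    apply Finset.card_eq_sum_card_fiberwise
    intro g hg
    rw [Finset.mem_coe, Finset.mem_filter] at hg ⊢
    exact ⟨Finset.mem_univ _, (hr g hg.2).1⟩
  have h2 : ∑ h ∈ univ.filter P, ((univ.filter (fun g : F ≃ₐ[ℚ] F => InH p M m n hmn g)).filter
      (fun g => r g = h)).card = (univ.filter P).card * c := by
    rw [Finset.sum_congr rfl (fun h hh => hc h (Finset.mem_filter.1 hh).2), Finset.sum_const,
      smul_eq_mul]
  rw [card_InH hpM hmn, h2] at h1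
  have h3 : (univ.filter P).card ∣ p ^ (n - m) := Dvd.intro _ h1.symm
  exact Nat.Coprime.coprime_dvd_left h3
    (Nat.Coprime.pow_left _ ((Nat.coprime_primes hpp hlpr).2 (Ne.symm hlp)))

theorem down (hl2 : l ≠ 2) (hlp : l ≠ p) (hpM : p.Coprime M) (X : PairD p M m n hmn K B F P) {e : B} (he : e ≠ 0)
    (hN : ∃ y, ∏ h ∈ univ.filter P, h e = y ^ l) {y : F} (hy : algebraMap B F e = y ^ l) : ∃ y : B, e = y ^ l := by
  have hlpr : l.Prime := Fact.out
  have hιe : algebraMap B F e ≠ 0 := by rw [Ne, map_eq_zero]; exact he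
  have hy0 : y ≠ 0 := by
    rintro rfl
    exact hιe (by rw [hy, zero_pow hlpr.ne_zero])
  have hgal0 : IsGalois ℚ F := IsCyclotomicExtension.isGalois {M * p ^ (n + 1)} ℚ F
  have hgal : IsGalois B F := IsGalois.tower_top_of_isGalois ℚ B F
  have hfd : FiniteDimensional B F := Module.Finite.of_restrictScalars_finite ℚ B F
  have key : ∀ h : B ≃ₐ[K] B, P h → ∃ c : B, e = h e * c ^ l := by
    intro h hh
    obtain ⟨g, hg, hx⟩ := X.cov h hh
    have hgy0 : g y ≠ 0 := by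
      intro h0
      exact hy0 (by simpa using h0)
    have hfix : ∀ δ : F ≃ₐ[B] F, δ (y / g y) = y / g y := by
      intro δ
      have hδe : δ (algebraMap B F e) = algebraMap B F e := δ.commutes e
      have hδy0 : δ y ≠ 0 := by
        intro h0
        exact hy0 (by simpa using h0)
      have h1 : (δ y / y) ^ l = 1 := by
        rw [div_pow, ← map_pow, ← hy, hδe]
        exact div_self hιe
      have h2 : g (δ y / y) = δ y / y := mu_fix hl2 hlp hg h1
      have hcomm : δ (g y) = g (δ y) := by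
        have h4 := Pa_comm p M n (δ.restrictScalars ℚ) g
        have h5 := DFunLike.congr_fun h4 y
        exact h5
      rw [map_div₀] at h2
      rw [map_div₀, hcomm, div_eq_div_iff (by intro h0; exact hδy0 (by simpa using h0)) hgy0]
      rw [div_eq_div_iff hgy0 hy0] at h2
      linear_combination -h2
    obtain ⟨c, hc⟩ := (IsGalois.mem_range_algebraMap_iff_fixed (F := B) (E := F) (y / g y)).2 hfix
    refine ⟨c, ?_⟩
    apply (algebraMap B F).injective
    have hgyl : (g y) ^ l ≠ 0 := pow_ne_zero l hgy0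
    rw [map_mul, map_pow, hc, ← hx, hy, map_pow, div_pow, mul_div_cancel₀ _ hgyl]
  choose! c hc using key
  obtain ⟨y₁, hy₁⟩ := hN
  have hprod : e ^ (univ.filter P).card =
      (y₁ * ∏ h ∈ univ.filter P, c h) ^ l := by
    rw [← Finset.prod_const, mul_pow, ← hy₁, ← Finset.prod_pow, ← Finset.prod_mul_distrib]
    exact Finset.prod_congr rfl fun h hh => hc h (Finset.mem_filter.1 hh).2
  exact pow_of_coprime (card_P hlp hpM X) he ⟨_, hprod⟩ ⟨_, rfl⟩

theorem pair_E (hl2 : l ≠ 2) (hlp : l ≠ p) (hpM : p.Coprime M) (HE : NoNewE l p M m n hmn F)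
    (X : PairD p M m n hmn K B F P) {e : B} (he : e ≠ 0)
    (hv : ∀ w : HeightOneSpectrum (𝓞 B), (l : ℤ) ∣ WithZero.log (w.valuation B e))
    (hN : ∃ y, ∏ h ∈ univ.filter P, h e = y ^ l)
    (hJ : ∀ g : F ≃ₐ[ℚ] F, kp (M * p ^ (n + 1)) g = -1 →
      ∃ y, algebraMap B F e * g (algebraMap B F e) = y ^ l)
    (hτ : ∀ g : F ≃ₐ[ℚ] F, IsTau p M n g → ∃ y, g (algebraMap B F e) = algebraMap B F e * y ^ l) :
    ∃ y : B, e = y ^ l := by
  have hιe : algebraMap B F e ≠ 0 := by rw [Ne, map_eq_zero]; exact he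
  have hvF : ∀ W : HeightOneSpectrum (𝓞 F),
      (l : ℤ) ∣ WithZero.log (W.valuation F (algebraMap B F e)) := by
    intro W
    have hbot : W.asIdeal.under (𝓞 B) ≠ ⊥ := Ideal.IsIntegral.comap_ne_bot _ W.ne_bot
    let w : HeightOneSpectrum (𝓞 B) := ⟨W.asIdeal.under (𝓞 B), inferInstance, hbot⟩
    have : W.asIdeal.LiesOver w.asIdeal := ⟨rfl⟩
    have h1 := HeightOneSpectrum.valuation_liesOver (K := B) F w W e
    rw [← h1, WithZero.log_pow, nsmul_eq_mul]
    exact (hv w).mul_left _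
  obtain ⟨y, hy⟩ := HE _ hιe hvF (prod_down X hN) hJ hτ
  exact down hl2 hlp hpM X he hN hy

end H78M
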