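import Pool.Agent.H78.MG.Pb

/-!
Row MgPc (about 110 lines): `NoNewMinus K L C s` from the pair form. Use only the STATEMENTS of Pb.

PROOF. `P h` is `h s = s`, `B = C`. `PairK K Km C F P`:
* `res`: `g : F ≃ₐ[Km] F`; `C / K` is Galois, so `g` (as an automorphism over `K`: `AlgEquiv.restrictScalars K`) restricts to `h = (g.restrictScalars K).restrictNormal C`, `g (ι x) = ι (h x)` (`AlgEquiv.restrictNormal_commutes`); `ι s` is in the image of `Km`,
  so `g (ι s) = ι s`, `h s = s` (`ι` injective).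
* `cov`: `h s = s`. `h` restricts to `h1 : L ≃ₐ[K] L` (`AlgEquiv.restrictNormal`, `L / K` Galois); `hcov h1` gives `g`; `g ∘ ι` and `ι ∘ h` agree on `L` and on `s` (`g` fixes `ι s`), so everywhere: `{x : C | g (ι x) = ι (h x)}` is a subfield containing `L` and `s`
  (`IntermediateField.adjoin_induction` / `H68IM.gen_mem`).
`hμ` for `l = 3`: `z^3 = 1`: `z = 1` or `z^2 + z + 1 = 0`, i.e. `(2 z + 1)^2 = -3 = (ι s)^2`, so `2 z + 1 = ± ι s`, `z = (-1 ± s0)/2` with `s0 ∈ Km` over `ι s`.
Let `e` satisfy the hypotheses of `NoNewMinus`: `pair_K` with `hN`; `hQ` from `hfix` (with `y = 1`); `hJ`: `hJ0` gives `g` with `g s = -s` and `J (ι x) = ι (g x)`, so `ι e * J (ι e) = ι (e * g e) = (ι y)^3`.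
-/

/-!
Row MgPc (about 110 lines): `NoNewMinus K L C s` from the pair form. Use only the STATEMENTS of Pb.

PROOF. `P h` is `h s = s`, `B = C`. `PairK K Km C F P`:
* `res`: `g : F ≃ₐ[Km] F`; `C / K` is Galois, so `g` (as an automorphism over `K`: `AlgEquiv.restrictScalars K`) restricts to `h = (g.restrictScalars K).restrictNormal C`, `g (ι x) = ι (h x)` (`AlgEquiv.restrictNormal_commutes`); `ι s` is in the image of `Km`,
  so `g (ι s) = ι s`, `h s = s` (`ι` injective).
* `cov`: `h s = s`. `h` restricts to `h1 : L ≃ₐ[K] L` (`AlgEquiv.restrictNormal`, `L / K` Galois); `hcov h1` gives `g`; `g ∘ ι` and `ι ∘ h` agree on `L` and on `s` (`g` fixes `ι s`), so everywhere: `{x : C | g (ι x) = ι (h x)}` is a subfield containing `L` and `s`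
  (`IntermediateField.adjoin_induction` / `H68IM.gen_mem`).
`hμ` for `l = 3`: `z^3 = 1`: `z = 1` or `z^2 + z + 1 = 0`, i.e. `(2 z + 1)^2 = -3 = (ι s)^2`, so `2 z + 1 = ± ι s`, `z = (-1 ± s0)/2` with `s0 ∈ Km` over `ι s`.
Let `e` satisfy the hypotheses of `NoNewMinus`: `pair_K` with `hN`; `hQ` from `hfix` (with `y = 1`); `hJ`: `hJ0` gives `g` with `g s = -s` and `J (ι x) = ι (g x)`, so `ι e * J (ι e) = ι (e * g e) = (ι y)^3`.
-/

set_option autoImplicit false
open scoped Classical

open IsDedekindDomain NumberField Finset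

namespace H78M

theorem noNewMinus_of_pair {K Km L C F : Type} [Field K] [NumberField K] [Field Km] [NumberField Km]
    [Field L] [NumberField L] [Field C] [NumberField C] [Field F] [NumberField F] [Algebra K Km] [Algebra Km F]
    [Algebra K F] [IsScalarTower K Km F] [Algebra K L] [Algebra L C] [Algebra K C] [IsScalarTower K L C]
    [Algebra C F] [IsScalarTower K C F] [IsGalois K F] [IsGalois K L] [IsGalois K C]
    (hab : ∀ g h : F ≃ₐ[K] F, g * h = h * g) (hn : ¬ 3 ∣ Module.finrank Km F) {s : C} (hs : s ^ 2 = -3)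
    (hgen : IntermediateField.adjoin L {s} = ⊤) (hsK : ∃ s0 : Km, algebraMap Km F s0 = algebraMap C F s)
    (hcov : ∀ h : L ≃ₐ[K] L, ∃ g : F ≃ₐ[Km] F, ∀ x : L,
      g (algebraMap C F (algebraMap L C x)) = algebraMap C F (algebraMap L C (h x)))
    {Q : Set (F ≃+* F)} {J : F ≃+* F} (HE : H68TL.NoNewE 3 Km F Q J)
    (hfix : ∀ τ ∈ Q, ∀ x : C, τ (algebraMap C F x) = algebraMap C F x)
    (hJ0 : ∃ g : C ≃ₐ[L] C, g s = -s ∧ ∀ x, J (algebraMap C F x) = algebraMap C F (g x)) :
    H55T3.NoNewMinus K L C s := by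
  have h3 : Fact (Nat.Prime 3) := ⟨Nat.prime_three⟩
  obtain ⟨s0, hs0⟩ := hsK
  have hgs : ∀ g : F ≃ₐ[Km] F, g (algebraMap C F s) = algebraMap C F s := by
    intro g
    rw [← hs0, g.commutes]
  have hX : PairK K Km C F (fun h : C ≃ₐ[K] C => h s = s) := by
    refine ⟨?_, ?_⟩
    · intro g
      have hcomm : ∀ x : C, g (algebraMap C F x) =
          algebraMap C F (((AlgEquiv.restrictScalars K g).restrictNormal C) x) := by
        intro x
        exact ((AlgEquiv.restrictScalars K g).restrictNormal_commutes C x).symm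
      refine ⟨(AlgEquiv.restrictScalars K g).restrictNormal C, ?_, hcomm⟩
      apply (algebraMap C F).injective
      rw [← hcomm s, hgs g]
    · intro h hh
      obtain ⟨g, hg⟩ := hcov (h.restrictNormal L)
      refine ⟨g, fun x => ?_⟩
      have hx : x ∈ IntermediateField.adjoin L ({s} : Set C) := by
        rw [hgen]
        exact IntermediateField.mem_top
      induction hx using IntermediateField.adjoin_induction with
      | mem y hy =>
        rw [Set.mem_singleton_iff] at hy
        rw [hy, hgs g, hh]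
      | algebraMap y =>
        rw [hg y, AlgEquiv.restrictNormal_commutes]
      | add y z _ _ hy hz => rw [map_add, map_add, hy, hz, map_add, map_add]
      | inv y _ hy => rw [map_inv₀, map_inv₀, hy, map_inv₀, map_inv₀]
      | mul y z _ _ hy hz => rw [map_mul, map_mul, hy, hz, map_mul, map_mul]
  have hμ : ∀ z : F, z ^ 3 = 1 → ∃ y : Km, algebraMap Km F y = z := by
    intro z hz
    have h1 : (z - 1) * (z ^ 2 + z + 1) = 0 := by linear_combination hz
    have hsF : (algebraMap C F s) ^ 2 = -3 := by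
      rw [← map_pow, hs, map_neg, map_ofNat]
    rcases mul_eq_zero.1 h1 with h2 | h2
    · exact ⟨1, by rw [map_one]; linear_combination -h2⟩
    · have h4 : (2 * z + 1 - algebraMap C F s) * (2 * z + 1 + algebraMap C F s) = 0 := by
        linear_combination 4 * h2 - hsF
      have h2F : (2 : F) ≠ 0 := two_ne_zero
      rcases mul_eq_zero.1 h4 with h5 | h5
      · refine ⟨(-1 + s0) / 2, ?_⟩
        rw [map_div₀, map_add, map_neg, map_one, map_ofNat, hs0, div_eq_iff h2F]
        linear_combination -h5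
      · refine ⟨(-1 - s0) / 2, ?_⟩
        rw [map_div₀, map_sub, map_neg, map_one, map_ofNat, hs0, div_eq_iff h2F]
        linear_combination -h5
  intro e he hv hN hJ'
  refine pair_K hab hn hμ HE hX he hv hN ?_ ?_
  · intro τ hτ
    exact ⟨1, by rw [hfix τ hτ, one_pow, mul_one]⟩
  · obtain ⟨g, hgs', hgJ⟩ := hJ0
    obtain ⟨y, hy⟩ := hJ' g hgs'
    exact ⟨algebraMap C F y, by rw [hgJ, ← map_mul, hy, map_pow]⟩

end H78M
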