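import Pool.Agent.H78.MG.Df

/-!
Row MgSa (about 120 lines): `(N / a) St = (c - φ(h)) B`. ADAPT `Pool/Agent/H55/T3/Mb.lean` (there `a = 3`, `N = 3 f`, and `c = 1` in `Ω`).

PROOF. `c = h.val`, `c % a = 1 % a`; for a unit `t` of `ZMod N` put `x = t.val` and `r = (h * t).val = (c * x) % N` (`ZMod.val_mul`). `r % a = x % a` (`Nat.mod_mod_of_dvd`, `Nat.mul_mod`).
`key`: `(N / a) * (c x / N) + r / a = c * (x / a) + (c / a) * (x % a)`: multiply by `a` (`a > 0` as `a ∣ N`, `N ≠ 0`; `a * (N / a) = N`): `N * (c x / N) + r = c x` (`Nat.div_add_mod`), `r = a (r / a) + x % a`,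
`x = a (x / a) + x % a`, and `c * (x % a) = a * (c / a) * (x % a) + x % a` (if `a = 1` then `x % a = 0`; otherwise `c = a (c / a) + 1`).
Cast to `Ω`, multiply by `φ(t)⁻¹` and sum over `t`: `(N/a) St + ∑ φ(t)⁻¹ ((h t).val / a) = c B + (c/a) ∑ φ(t)⁻¹ (x % a)`. The last sum is 0 (substitute `t → h t`: `(h t).val % a = t.val % a`, and `φ h ≠ 1`),
and `∑_t φ(t)⁻¹ ((h t).val/a) = φ(h) B` (`Equiv.sum_comp (Equiv.mulLeft h)`).
-/

set_option autoImplicit false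
open scoped Classical

open Finset

namespace H78M

theorem val_mul_mod {N a : ℕ} [NeZero N] (ha : a ∣ N) (h t : (ZMod N)ˣ) (hh : (h : ZMod N).val % a = 1 % a) :
    ((h * t : (ZMod N)ˣ) : ZMod N).val % a = (t : ZMod N).val % a := by
  rw [Units.val_mul, ZMod.val_mul, Nat.mod_mod_of_dvd _ ha, Nat.mul_mod, hh, ← Nat.mul_mod, one_mul]

theorem key {N a : ℕ} [NeZero N] (ha : a ∣ N) (h t : (ZMod N)ˣ) (hh : (h : ZMod N).val % a = 1 % a) :
    N / a * ((h : ZMod N).val * (t : ZMod N).val / N) + (((h * t : (ZMod N)ˣ) : ZMod N).val / a) =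
      (h : ZMod N).val * ((t : ZMod N).val / a) + ((h : ZMod N).val / a) * ((t : ZMod N).val % a) := by
  have h1 := val_mul_mod ha h t hh
  have h2 : ((h * t : (ZMod N)ˣ) : ZMod N).val = ((h : ZMod N).val * (t : ZMod N).val) % N := by
    rw [Units.val_mul, ZMod.val_mul]
  rw [h2] at h1 ⊢
  have hN : 0 < N := Nat.pos_of_ne_zero (NeZero.ne N)
  have ha0 : 0 < a := Nat.pos_of_dvd_of_pos ha hN
  have hM : a * (N / a) = N := Nat.mul_div_cancel' ha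
  set c := (h : ZMod N).val
  set x := (t : ZMod N).val
  have hs : (1 % a) * (x % a) = x % a := by
    by_cases h5 : a = 1
    · rw [h5, Nat.mod_one, Nat.mod_one, mul_zero]
    · rw [Nat.mod_eq_of_lt (by omega : 1 < a), one_mul]
  have e1 := Nat.div_add_mod (c * x) N
  set q := c * x / N
  set r := c * x % N
  have e2 := Nat.div_add_mod r a
  have e3 := Nat.div_add_mod x a
  have e4 := Nat.div_add_mod c a
  rw [hh] at e4
  rw [h1] at e2
  set r' := r / a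
  set x' := x / a
  set s := x % a
  set d := c / a
  set M := N / a
  have h7 : a * (M * q + r') + s = c * x := by
    rw [← e1, ← e2, ← hM]; ring
  have h8 : c * x = a * (c * x' + d * s) + s := by
    calc c * x = c * (a * x' + s) := by rw [e3]
      _ = a * (c * x') + c * s := by ring
      _ = a * (c * x') + (a * d + 1 % a) * s := by rw [e4]
      _ = a * (c * x' + d * s) + (1 % a) * s := by ring
      _ = _ := by rw [hs]
  apply Nat.eq_of_mul_eq_mul_left ha0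
  omega

theorem sum_mod {N a : ℕ} [NeZero N] (ha : a ∣ N) {Ω : Type*} [Field Ω] (φ : (ZMod N)ˣ →* Ωˣ)
    (h : (ZMod N)ˣ) (hh : (h : ZMod N).val % a = 1 % a) (hφ : φ h ≠ 1) :
    ∑ t : (ZMod N)ˣ, (((φ t)⁻¹ : Ωˣ) : Ω) * (((t : ZMod N).val % a : ℕ) : Ω) = 0 := by
  set S := ∑ t : (ZMod N)ˣ, (((φ t)⁻¹ : Ωˣ) : Ω) * (((t : ZMod N).val % a : ℕ) : Ω) with hS
  have h1 : S = (((φ h)⁻¹ : Ωˣ) : Ω) * S := by
    have h2 : S = ∑ t : (ZMod N)ˣ, (((φ (h * t))⁻¹ : Ωˣ) : Ω) *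
        ((((h * t : (ZMod N)ˣ) : ZMod N).val % a : ℕ) : Ω) := by
      rw [hS]
      exact (Equiv.sum_comp (Equiv.mulLeft h)
        (fun t : (ZMod N)ˣ => (((φ t)⁻¹ : Ωˣ) : Ω) * (((t : ZMod N).val % a : ℕ) : Ω))).symm
    conv_lhs => rw [h2]
    rw [hS, Finset.mul_sum]
    apply Finset.sum_congr rfl
    intro t _
    rw [val_mul_mod ha h t hh, map_mul, mul_inv, Units.val_mul]
    ring
  have h3 : (((φ h)⁻¹ : Ωˣ) : Ω) ≠ 1 := by
    intro h4
    apply hφ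
    have : (φ h)⁻¹ = 1 := Units.ext h4
    exact inv_eq_one.mp this
  have h5 : ((((φ h)⁻¹ : Ωˣ) : Ω) - 1) * S = 0 := by rw [sub_mul, one_mul, ← h1, sub_self]
  rcases mul_eq_zero.mp h5 with h6 | h6
  · exact absurd (sub_eq_zero.mp h6) h3
  · exact h6

theorem stick_formula {N a : ℕ} [NeZero N] (ha : a ∣ N) {Ω : Type*} [Field Ω] (φ : (ZMod N)ˣ →* Ωˣ)
    (h : (ZMod N)ˣ) (hh : (h : ZMod N).val % a = 1 % a) (hφ : φ h ≠ 1) :
    ((N / a : ℕ) : Ω) * St N (h : ZMod N).val φ =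
      ((((h : ZMod N).val : ℕ) : Ω) - (φ h : Ω)) * Bm N a φ := by
  have h1 : ((N / a : ℕ) : Ω) * St N (h : ZMod N).val φ +
      ∑ t : (ZMod N)ˣ, (((φ t)⁻¹ : Ωˣ) : Ω) *
        ((((h * t : (ZMod N)ˣ) : ZMod N).val / a : ℕ) : Ω) = (((h : ZMod N).val : ℕ) : Ω) * Bm N a φ +
      (((h : ZMod N).val / a : ℕ) : Ω) *
        ∑ t : (ZMod N)ˣ, (((φ t)⁻¹ : Ωˣ) : Ω) * (((t : ZMod N).val % a : ℕ) : Ω) := by
    unfold St Bm
    rw [Finset.mul_sum, Finset.mul_sum, Finset.mul_sum, ← Finset.sum_add_distrib, ← Finset.sum_add_distrib]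
    apply Finset.sum_congr rfl
    intro t _
    have hk := congrArg (fun n : ℕ => (n : Ω)) (key ha h t hh)
    simp only [Nat.cast_add, Nat.cast_mul] at hk
    linear_combination (((φ t)⁻¹ : Ωˣ) : Ω) * hk
  have h2 : ∑ t : (ZMod N)ˣ, (((φ t)⁻¹ : Ωˣ) : Ω) *
        ((((h * t : (ZMod N)ˣ) : ZMod N).val / a : ℕ) : Ω) = (φ h : Ω) * Bm N a φ := by
    have h3 : Bm N a φ = ∑ t : (ZMod N)ˣ, (((φ (h * t))⁻¹ : Ωˣ) : Ω) *
        ((((h * t : (ZMod N)ˣ) : ZMod N).val / a : ℕ) : Ω) := by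
      unfold Bm
      exact (Equiv.sum_comp (Equiv.mulLeft h)
        (fun t : (ZMod N)ˣ => (((φ t)⁻¹ : Ωˣ) : Ω) * (((t : ZMod N).val / a : ℕ) : Ω))).symm
    rw [h3, Finset.mul_sum]
    apply Finset.sum_congr rfl
    intro t _
    rw [show (((φ (h * t))⁻¹ : Ωˣ) : Ω) = (((φ h)⁻¹ : Ωˣ) : Ω) * (((φ t)⁻¹ : Ωˣ) : Ω) by
      rw [map_mul, mul_inv, Units.val_mul]]
    have : (φ h : Ω) * (((φ h)⁻¹ : Ωˣ) : Ω) = 1 := by
      rw [← Units.val_mul, mul_inv_cancel, Units.val_one]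
    linear_combination (-(((φ t)⁻¹ : Ωˣ) : Ω) *
        ((((h * t : (ZMod N)ˣ) : ZMod N).val / a : ℕ) : Ω)) * this
  rw [sum_mod ha φ h hh hφ, mul_zero, add_zero, h2] at h1
  linear_combination h1

end H78M
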