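import Pool.Agent.H78.MG.Df
import Pool.Agent.H55.T3.Mf

/-!
Row MgSc (about 110 lines): the arithmetic sum. From `Pool/Agent/H55/T3/Mf.lean` use only `H55T3.sum_arith` (`v ≠ 1`, `v^f = 1`: `(v - 1) ∑_{u<f} u v^u = f`, `∑_{u<f} v^u = 0`).

PROOF. `sum_split`: write `t = n + M j` with `n < M`, `j < P` (induction on `P`: `Finset.sum_range_add` / `Finset.range_add`, `M * (P + 1) = M * P + M`; or `Finset.sum_nat_mod`).
`arith_sum`: `(n + M j) / a = n / a + (M / a) j` (as `a ∣ M`: `Nat.add_mul_div_left`-type lemma, `a > 0`), `((n + M j : ℕ) : ZMod M) = n`, `w^(n + M j) = w^n (w^M)^j`. So the sum is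
`∑_{n<M} c(n) w^n ((n/a) ∑_j (w^M)^j + (M/a) ∑_j j (w^M)^j) = ∑_{n<M} c(n) w^n (M/a) P / (w^M - 1)`, with `(w^M)^P = (w^P)^M = 1`, and `Fc c w = (∑ c(n) w^n) / (1 - w^M)`.
-/

set_option autoImplicit false
open scoped Classical

open Finset

namespace H78M

theorem sum_split {R : Type*} [AddCommMonoid R] (M P : ℕ) (F : ℕ → R) :
    ∑ t ∈ range (M * P), F t = ∑ n ∈ range M, ∑ j ∈ range P, F (n + M * j) := by
  induction P with
  | zero => simp
  | succ P ih =>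
    rw [Nat.mul_succ, Finset.sum_range_add, ih, ← Finset.sum_add_distrib]
    refine Finset.sum_congr rfl fun n _ => ?_
    rw [Finset.sum_range_succ, Nat.add_comm (M * P) n]

theorem arith_sum {Ω : Type*} [Field Ω] {M a P : ℕ} [NeZero M] (ha : a ∣ M) (c : ZMod M → Ω) {w : Ω}
    (hw : w ^ P = 1) (hwM : w ^ M ≠ 1) :
    ∑ t ∈ range (M * P), c (t : ZMod M) * ((t / a : ℕ) : Ω) * w ^ t =
      - (((M / a * P : ℕ) : Ω) * H46TS.Fc c w) := by
  have hM0 : M ≠ 0 := NeZero.ne M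
  have ha0 : 0 < a := by
    rcases Nat.eq_zero_or_pos a with h | h
    · rw [h, zero_dvd_iff] at ha
      exact absurd ha hM0
    · exact h
  obtain ⟨k, hk⟩ := ha
  have hdiv : M / a = k := by rw [hk, Nat.mul_div_cancel_left k ha0]
  have hv1 : w ^ M - 1 ≠ 0 := sub_ne_zero.2 hwM
  have hvP : (w ^ M) ^ P = 1 := by rw [← pow_mul, mul_comm, pow_mul, hw, one_pow]
  obtain ⟨s1, s2⟩ := H55T3.sum_arith (w ^ M) hwM P hvP
  have s1' : ∑ u ∈ range P, (u : Ω) * (w ^ M) ^ u = (P : Ω) / (w ^ M - 1) := by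
    rw [eq_div_iff hv1, mul_comm]
    exact s1
  rw [sum_split, hdiv]
  have hterm : ∀ n ∈ range M, ∑ j ∈ range P, c ((n + M * j : ℕ) : ZMod M) *
      (((n + M * j) / a : ℕ) : Ω) * w ^ (n + M * j) =
      (c (n : ZMod M) * w ^ n) * ((k : Ω) * ((P : Ω) / (w ^ M - 1))) := by
    intro n _
    have h1 : ∀ j ∈ range P, c ((n + M * j : ℕ) : ZMod M) *
        (((n + M * j) / a : ℕ) : Ω) * w ^ (n + M * j) =
        (c (n : ZMod M) * w ^ n * ((n / a : ℕ) : Ω)) * (w ^ M) ^ j +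
          (c (n : ZMod M) * w ^ n * (k : Ω)) * ((j : Ω) * (w ^ M) ^ j) := by
      intro j _
      have h2 : ((n + M * j : ℕ) : ZMod M) = (n : ZMod M) := by
        rw [Nat.cast_add, Nat.cast_mul, ZMod.natCast_self, zero_mul, add_zero]
      have h3 : (n + M * j) / a = n / a + k * j := by
        rw [hk, mul_assoc, Nat.add_mul_div_left _ _ ha0]
      rw [h2, h3, pow_add, pow_mul, Nat.cast_add, Nat.cast_mul]
      ring
    rw [Finset.sum_congr rfl h1, Finset.sum_add_distrib, ← Finset.mul_sum, ← Finset.mul_sum, s2, s1',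
      mul_zero, zero_add]
    ring
  rw [Finset.sum_congr rfl hterm, ← Finset.sum_mul]
  unfold H46TS.Fc
  have hv2 : 1 - w ^ M ≠ 0 := sub_ne_zero.2 (Ne.symm hwM)
  rw [Nat.cast_mul]
  have h4 : (1 - w ^ M) = -(w ^ M - 1) := by ring
  rw [h4, div_neg, mul_neg, neg_neg]
  ring

end H78M
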